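import Pool.Agent.W534.TateDefs

/-!
# Varieties whose cohomology is spanned by cycles and by the eigenvectors given by a number
-/

set_option autoImplicit false

open CategoryTheory AlgebraicGeometry NumberField

universe u v

namespace Pool.Agent.Y103.Sq

open Pool.Agent.H914 Pool.Agent.H914.VarClass Pool.Agent.H914.VarClass.Obj
  Pool.Agent.H914.WeilCohomology Pool.Agent.W534

/-- The element `x` of `V` is an eigenvector of `F`, with an eigenvalue `μ` which is, up to a root
of unity, the product of `(p ^ r) ^ (n / 2)` and of an `e`-th root of `β`: we have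
`μ ^ (2 e N) = p ^ (r n e N) β ^ (2 N)` for some `N > 0`. -/
def IsEigenFor {K H : Type*} [Field K] [Ring H] [Algebra K H] (V : Submodule K H) (F : H →ₐ[K] H)
    (p r n e : ℕ) (β : K) (x : H) : Prop :=
  x ∈ V ∧ ∃ (μ : K) (N : ℕ), 0 < N ∧ F x = μ • x ∧
    μ ^ (2 * e * N) = (p : K) ^ (r * (n * (e * N))) * β ^ (2 * N)

/-- The set spans the algebra as a vector space. -/
def Spanning (K : Type*) {H : Type*} [Field K] [Ring H] [Algebra K H] (S : Set H) : Prop :=
  Submodule.span K S = ⊤

/-- The elements of the set are multiples of each other. -/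
def OnLine (K : Type*) {H : Type*} [Field K] [Ring H] [Algebra K H] (S : Set H) : Prop :=
  ∀ x ∈ S, ∀ y ∈ S, y ≠ 0 → ∃ t : K, x = t • y

/-- The elements `c` of `V` with `F s c = p ^ (r s j) c` for some `s > 0` are linear combinations
of elements of `S`. -/
def TateFor {K H : Type*} [Field K] [Ring H] [Algebra K H] (V : Submodule K H)
    (F : ℕ → H →ₐ[K] H) (p r j : ℕ) (S : Set H) : Prop :=
  ∀ c ∈ V, (∃ s, 0 < s ∧ F s c = (p : K) ^ (r * s * j) • c) → c ∈ Submodule.span K S

/-- The classes of algebraic cycles on `X`. -/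
def cycles {k : Type u} [Field k] {𝒱 : VarClass k} {ops : CycleOps 𝒱}
    (W : WeilCohomology.{u, v} ops) (X : 𝒱.Obj) : Set (W.H X) :=
  {a | ∃ j z, X.IsCyc j z ∧ a = W.cl X z}

/-- The eigenvectors in the middle degree `dim X` of the Frobenius endomorphism of `X` (over the
field with `q = p ^ Φ.e X` elements) whose eigenvalue is, up to a root of unity, the product of
`q ^ (dim X / 2)` and of an `e`-th root of `σ α`. -/
def letters {k : Type u} [Field k] {𝒱 : VarClass k} {ops : CycleOps 𝒱}
    {W : WeilCohomology.{u, v} ops} {p : ℕ} (Φ : FrobSystem W p) (X : 𝒱.Obj) (e : ℕ)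
    {E : Type} [Field E] (α : E) (σ : E →+* W.K) : Set (W.H X) :=
  {x | IsEigenFor (W.gr X X.dim) (W.map (Φ.Fr X)) p (Φ.e X) X.dim e (σ α) x}

/-- The cohomology of `X` is spanned by classes of algebraic cycles and by the eigenvectors given by
the conjugates of `α`. -/
def IsSpannedByNumber {k : Type u} [Field k] {𝒱 : VarClass k} {ops : CycleOps 𝒱}
    {W : WeilCohomology.{u, v} ops} {p : ℕ} (Φ : FrobSystem W p) (X : 𝒱.Obj) (e : ℕ)
    {E : Type} [Field E] (α : E) : Prop :=
  0 < e ∧ Spanning W.K (cycles W X ∪ ⋃ σ, letters Φ X e α σ)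

/-- The Tate conjecture for `X × X` in the codimension `dim X`. -/
def TateSquare {k : Type u} [Field k] {𝒱 : VarClass k} {ops : CycleOps 𝒱}
    {W : WeilCohomology.{u, v} ops} {p : ℕ} (Φ : FrobSystem W p) (X : 𝒱.Obj) : Prop :=
  TateFor (W.gr (X.prod X) (2 * X.dim)) (fun s => W.map (W534.iter (Φ.Fr (X.prod X)) s)) p
    (Φ.e (X.prod X)) X.dim (cycles W (X.prod X))

end Pool.Agent.Y103.Sq
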