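import Pool.Agent.Y103.Hk.Mix
import Pool.Agent.Y138.KH.Rel
import Mathlib.FieldTheory.PrimitiveElement

/-!
# The powers of a number without relations generate the field
-/

set_option autoImplicit false
set_option linter.unusedSectionVars false

open NumberField Polynomial Module

namespace Pool.Agent.Y103.Sq

open Pool.Agent.TH121.KT Pool.Agent.Y103.Hk

variable {p : ℕ} [Fact p.Prime] {ι : Qb →+* PadicAlgCl p} {E : Type} [Field E] [NumberField E]
  [IsCMField E] {α : E}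

/-- embeddings which agree on a power are equal -/
lemma emb_eq_of_noRel (H : NoRel ι α) {s : ℕ} (hs : 0 < s) {σ τ : E →+* Qb}
    (h : σ (α ^ s) = τ (α ^ s)) : σ = τ := by
  classical
  by_contra hne
  set f : (E →+* Qb) → ℤ := fun ρ => (if ρ = σ then 1 else 0) - (if ρ = τ then 1 else 0) -
    (if cj ρ = σ then 1 else 0) + (if cj ρ = τ then 1 else 0) with hf
  have hodd : IsOdd f := by
    intro ρ
    simp only [hf, cj_cj]
    ring
  have hlog : ∀ g : GQ, Real.log ‖ι (g (σ α))‖ = Real.log ‖ι (g (τ α))‖ := by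
    intro g
    have h1 : g (σ α) ^ s = g (τ α) ^ s := by
      rw [← map_pow, ← map_pow, ← map_pow, ← map_pow, h]
    have h2 : ‖ι (g (σ α))‖ ^ s = ‖ι (g (τ α))‖ ^ s := by
      rw [← norm_pow, ← norm_pow, ← map_pow ι, ← map_pow ι, h1]
    rw [(pow_left_inj₀ (norm_nonneg _) (norm_nonneg _) hs.ne').1 h2]
  have hlogc : ∀ (g : GQ) (ρ : E →+* Qb), Real.log ‖ι (g (cj ρ α))‖ =
      - Real.log ‖ι (g (ρ α))‖ := by
    intro g ρ
    have h1 := cj_norm (ι := ι) H.unitary (act g ρ)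
    rw [← act_cj] at h1
    change Real.log ‖ι ((act g (cj ρ)) α)‖ = - Real.log ‖ι ((act g ρ) α)‖
    rw [h1, Real.log_inv]
  have hR : ∀ g, RR ι α f g = 0 := by
    intro g
    have key : ∀ ρ₀ : E →+* Qb, ∑ ρ : E →+* Qb, ((if ρ = ρ₀ then (1 : ℝ) else 0) *
        Real.log ‖ι (g (ρ α))‖) = Real.log ‖ι (g (ρ₀ α))‖ := by
      intro ρ₀
      simp
    have key2 : ∀ ρ₀ : E →+* Qb, ∑ ρ : E →+* Qb, ((if cj ρ = ρ₀ then (1 : ℝ) else 0) *
        Real.log ‖ι (g (ρ α))‖) = - Real.log ‖ι (g (ρ₀ α))‖ := by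
      intro ρ₀
      rw [← hlogc, ← key (cj ρ₀)]
      refine Finset.sum_congr rfl fun ρ _ => ?_
      congr 1
      have : cj ρ = ρ₀ ↔ ρ = cj ρ₀ := by
        constructor
        · rintro rfl; rw [cj_cj]
        · rintro rfl; rw [cj_cj]
      simp only [this]
    unfold RR
    have h1 : ∀ ρ : E →+* Qb, (f ρ : ℝ) * Real.log ‖ι (g (ρ α))‖ =
        (if ρ = σ then (1 : ℝ) else 0) * Real.log ‖ι (g (ρ α))‖ -
        (if ρ = τ then (1 : ℝ) else 0) * Real.log ‖ι (g (ρ α))‖ -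
        (if cj ρ = σ then (1 : ℝ) else 0) * Real.log ‖ι (g (ρ α))‖ +
        (if cj ρ = τ then (1 : ℝ) else 0) * Real.log ‖ι (g (ρ α))‖ := by
      intro ρ
      simp only [hf]
      push_cast
      ring
    rw [Finset.sum_congr rfl fun ρ _ => h1 ρ, Finset.sum_add_distrib, Finset.sum_sub_distrib,
      Finset.sum_sub_distrib, key, key, key2, key2, hlog g]
    ring
  have h1 := H.zero f hodd hR σ
  simp only [hf, if_neg hne] at h1
  have h2 : cj σ ≠ σ := Y138.KH.cj_ne_self σ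
  rw [if_neg h2] at h1
  split_ifs at h1 <;> omega

theorem gen_of_noRel (H : NoRel ι α) (s : ℕ) (hs : 0 < s) :
    IntermediateField.adjoin ℚ {α ^ s} = ⊤ := by
  have h0 : Nonempty (E →ₐ[ℚ] Qb) := ⟨IsAlgClosed.lift⟩
  obtain ⟨φ⟩ := h0
  have h1 := (Field.primitive_element_iff_algHom_eq_of_eval ℚ Qb
    (fun x => IsAlgClosed.splits _) (α ^ s) φ).2 (fun ψ hψ => by
      have h2 : (φ : E →+* Qb) = ψ := emb_eq_of_noRel H hs hψ
      exact AlgHom.coe_ringHom_injective h2)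
  exact h1

end Pool.Agent.Y103.Sq
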