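import Pool.Agent.Y103.Sq.Simple
import Pool.Agent.W290.MF.Hodge
import Pool.Agent.H281R3.HT.Mid
import Pool.Agent.Y103.Sh.Main

/-!
# The conjecture of Hodge type for the square, from multiplicity one
-/

set_option autoImplicit false
set_option linter.unusedSectionVars false

open CategoryTheory AlgebraicGeometry NumberField Polynomial

universe u v

namespace Pool.Agent.Y103.Sq

open Pool.Agent.H914 Pool.Agent.H914.VarClass Pool.Agent.H914.VarClass.Obj
  Pool.Agent.H914.WeilCohomology Pool.Agent.H281R3.HT Pool.Agent.W552 Pool.Agent.W534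
  Pool.Agent.W458.RK Pool.Agent.W458.MF Pool.Agent.TH132.A Pool.Agent.W536.RR
  Pool.Agent.TH121.KT Pool.Agent.Y138.KH Pool.Agent.Y103.Hk Pool.Agent.W290.MF

variable {k : Type u} [Field k] {𝒱 : VarClass k} {ops : CycleOps 𝒱}
  {W : WeilCohomology.{u, v} ops} {X Y Z : 𝒱.Obj} {p : ℕ} {Φ : FrobSystem W p} {e : ℕ}
  {E : Type} [Field E] [NumberField E] [IsCMField E] {α : E}

/-- homological and numerical equivalence agree -/
theorem homEqNum_simple (hpow : ∀ s : ℕ, 0 < s → IntermediateField.adjoin ℚ {α ^ s} = ⊤)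
    (hsp : algSpan W X ⊔ Submodule.span W.K {x | ∃ σ, IsLetter Φ X e α σ x} = ⊤) :
    HomEqNum W X := by
  intro j hj z hz hnum
  apply W.nondeg
  intro y
  have hy : y ∈ algSpan W X ⊔ Submodule.span W.K {x | ∃ σ, IsLetter Φ X e α σ x} := by
    rw [hsp]; exact Submodule.mem_top
  obtain ⟨a, ha, l, hl, rfl⟩ := Submodule.mem_sup.1 hy
  rw [mul_add, map_add]
  have h1 : W.tr X (W.cl X z * l) = 0 := by
    rw [alg_even (cl_mem_algSpan hz), span_letter_orth hpow hl (cl_mem_algSpan hz)]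
  rw [h1, add_zero]
  refine algSpan_induction (p := fun a => W.tr X (W.cl X z * a) = 0) ?_ ?_ ?_ ?_ ha
  · rw [mul_zero, map_zero]
  · intro x y hx hy
    rw [mul_add, map_add, hx, hy, add_zero]
  · intro t x hx
    rw [mul_smul_comm, map_smul, hx, smul_zero]
  · intro i w hw
    by_cases hi : i = X.dim - j
    · subst hi
      rw [← W.cl_mul, W.tr_cl, hnum w hw, Rat.cast_zero]
      have := ops.mul_mem hz hw
      rwa [show j + (X.dim - j) = X.dim by omega] at this
    · exact W.tr_eq_zero (W.mul_mem (W.cl_mem hz) (W.cl_mem hw)) (by omega)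

/-- **The conjecture of Hodge type for the square.** -/
theorem hodge_square_simple (hu : ∀ φ : E →+* ℂ, ‖φ α‖ = 1)
    (hpow : ∀ s : ℕ, 0 < s → IntermediateField.adjoin ℚ {α ^ s} = ⊤) (he : 0 < e)
    (hsp : algSpan W X ⊔ Submodule.span W.K {x | ∃ σ, IsLetter Φ X e α σ x} = ⊤)
    (hmult : ∀ σ, IsLine W.K {x | IsLetter Φ X e α σ x}) {D : X.Cycles} (hD : X.IsCyc 1 D)
    (hHL : HardLefschetz W X D) (hH : HodgeType W X D) :
    HodgeType W (X.prod X) (boxSum ops D) := by
  have hit : W534.iter (Φ.Fr X) 1 = Φ.Fr X := by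
    simp [W534.iter]
  have hF : FrobeniusOnCycles W (X.prod X) (squareMap (W534.iter (Φ.Fr X) 1)) (p ^ Φ.e X) :=
    frob_nest (Φ := Φ) (Φ.e_pos X) 1 (fun _ => (⟨X, D⟩ : Polarized 𝒱)) (fun _ => 1)
      (fun _ => mul_one _)
  rw [hit] at hF
  exact hodgeType_square hD hHL (lefschetzA_of_D hD hHL (homEqNum_simple hpow hsp)) hH
    (pow_pos Φ.p_pos _) hF (riemann hu he hsp) (simpleSpectrum hpow hsp hmult)

end Pool.Agent.Y103.Sq
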