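import Pool.Agent.Y103.Sq.Split
import Pool.Agent.Y103.Sq.Square
import Pool.Agent.TH132.A.Hodge
import Pool.Agent.W552.Main

/-!
# The conjecture of Hodge type for the square, with different divisors
-/

set_option autoImplicit false
set_option linter.unusedSectionVars false

open CategoryTheory AlgebraicGeometry NumberField Polynomial

universe u v

namespace Pool.Agent.Y103.Sq

open Pool.Agent.H914 Pool.Agent.H914.VarClass Pool.Agent.H914.VarClass.Obj
  Pool.Agent.H914.WeilCohomology Pool.Agent.H281R3.HT Pool.Agent.W552 Pool.Agent.W534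
  Pool.Agent.W458.RK Pool.Agent.W458.MF Pool.Agent.TH132.A Pool.Agent.W536.RR
  Pool.Agent.TH121.KT Pool.Agent.Y138.KH Pool.Agent.Y103.Hk

variable {k : Type u} [Field k] {𝒱 : VarClass k} {ops : CycleOps 𝒱}
  {W : WeilCohomology.{u, v} ops} {X Y Z : 𝒱.Obj} {p : ℕ} {Φ : FrobSystem W p} {e : ℕ}
  {E : Type} [Field E] [NumberField E] [IsCMField E] {α : E}

lemma as_alg {x : W.H X} (hx : AS W X x) : x ∈ algSpan W X := by
  refine AS.ind (p := fun x => x ∈ algSpan W X) ?_ ?_ hx
  · rintro j x ⟨z, hz, rfl⟩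
    exact cl_mem_algSpan hz
  · exact fun a b ha hb => Submodule.add_mem _ ha hb

section letter

variable (hpow : ∀ s : ℕ, 0 < s → IntermediateField.adjoin ℚ {α ^ s} = ⊤)
  (hsp : algSpan W X ⊔ Submodule.span W.K {x | ∃ σ, IsLetter Φ X e α σ x} = ⊤)
  {D D' : X.Cycles} {f f' : Module.End W.K (W.H X)} (F : Fr W X D f) (F' : Fr W X D' f')
  {σ τ : E →+* W.K} {l l' : W.H X} (hl : IsLetter Φ X e α σ l) (hl' : IsLetter Φ X e α τ l')

include hpow hsp F hl

/-- a divisor kills the letters -/
lemma div_letter : W.cl X D * l = 0 := by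
  apply W.nondeg
  intro y
  have hy : y ∈ algSpan W X ⊔ Submodule.span W.K {x | ∃ σ, IsLetter Φ X e α σ x} := by
    rw [hsp]; exact Submodule.mem_top
  obtain ⟨a', ha', l₁, hl₁, rfl⟩ := Submodule.mem_sup.1 hy
  have hDl : W.cl X D * l ∈ W.gr X (2 * 1 + X.dim) := W.mul_mem (W.cl_mem F.hD) hl.1
  have h1 : W.tr X (W.cl X D * l * a') = 0 := by
    rw [W.even_comm (p := 1) (W.cl_mem F.hD) l, mul_assoc]
    exact letter_orth hpow hl (algSpan_mul (cl_mem_algSpan F.hD) ha')
  have h2 : W.tr X (W.cl X D * l * l₁) = 0 := by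
    clear hy
    induction hl₁ using Submodule.span_induction with
    | mem x hx =>
      obtain ⟨τ, hx⟩ := hx
      exact W.tr_eq_zero (W.mul_mem hDl hx.1) (by omega)
    | zero => rw [mul_zero, map_zero]
    | add x y _ _ hx hy => rw [mul_add, map_add, hx, hy, add_zero]
    | smul t x _ hx => rw [mul_smul_comm, map_smul, hx, smul_zero]
  rw [mul_add, map_add, h1, h2, add_zero]

/-- the star operator on the letters -/
lemma st_letter : st W X D f l = (sg X.dim : W.K) • l := by
  have h0 := div_letter hpow hsp F hl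
  have hwt : wt (W.isInternal X) X.dim l = -((0 : ℕ) : W.K) • l := by
    rw [Fr.wt_gr hl.1]
    simp
  have hf : f l = 0 := by
    refine F.sl2.f_eq_zero hwt ?_
    rw [zero_add, pow_one, LinearMap.mulLeft_apply, h0]
  rw [st_apply hl.1]
  congr 1
  have h1 := wey_lowest F.sl2 hf hwt
  rw [Nat.factorial_zero, Nat.cast_one, inv_one, pow_zero, one_smul, Module.End.one_apply] at h1
  exact h1

lemma bf_letter (x : W.H X) : bf W X D f x l = (sg X.dim : W.K) * W.tr X (x * l) := by
  rw [bf_apply, st_letter hpow hsp F hl, mul_smul_comm, map_smul, smul_eq_mul]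

lemma bf_alg_letter {a : W.H X} (ha : AS W X a) : bf W X D f a l = 0 := by
  rw [bf_letter hpow hsp F hl, alg_even (as_alg ha), letter_orth hpow hl (as_alg ha), mul_zero]

omit hsp in
lemma bf_letter_alg {a : W.H X} (ha : AS W X a) : bf W X D f l a = 0 := by
  rw [bf_apply]
  exact letter_orth hpow hl (as_alg (F.st_AS ha))

end letter

lemma fr_hom {D : X.Cycles} {f : Module.End W.K (W.H X)} (F : Fr W X D f) :
    IsHom (W.gr X) (-2) f := by
  intro i a ha
  rcases lt_or_ge i 0 with hi | hi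
  · rw [grZ_of_neg hi, Submodule.mem_bot] at ha
    rw [ha, map_zero]
    exact Submodule.zero_mem _
  · obtain ⟨n, rfl⟩ := Int.eq_ofNat_of_zero_le hi
    rw [grZ_natCast] at ha
    obtain ⟨h1, h2⟩ := F.f_gr ha
    by_cases hn : n < 2
    · rw [h2 hn]
      exact Submodule.zero_mem _
    · have h3 := h1 (n - 2) (by omega)
      rw [show (n : ℤ) + -2 = ((n - 2 : ℕ) : ℤ) by omega, grZ_natCast]
      exact h3

lemma coef_letter (hpow : ∀ s : ℕ, 0 < s → IntermediateField.adjoin ℚ {α ^ s} = ⊤)
    {b : W.H X} (hb : AS W X b) {y : W.H (X.prod X)}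
    (hy : y ∈ Submodule.span W.K (LetterPairs Φ X e α)) : coef W b y = 0 := by
  unfold coef
  induction hy using Submodule.span_induction with
  | mem w hw =>
    obtain ⟨σ, τ, x, y, hx, hy, rfl⟩ := hw
    rw [H281R3.HT.ext, mul_assoc, ← (hb.map (fst X X)).comm (W.map (snd X X) y), ← mul_assoc,
      ← map_mul, W.push_snd, letter_orth hpow hx (as_alg hb), zero_smul]
  | zero => rw [zero_mul, map_zero]
  | add x y _ _ hx hy => rw [add_mul, map_add, hx, hy, add_zero]
  | smul t x _ hx => rw [smul_mul_assoc, map_smul, hx, smul_zero]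

/-- the form on the products of letters does not depend on the divisors -/
lemma form_indep (hpow : ∀ s : ℕ, 0 < s → IntermediateField.adjoin ℚ {α ^ s} = ⊤)
    (hsp : algSpan W X ⊔ Submodule.span W.K {x | ∃ σ, IsLetter Φ X e α σ x} = ⊤)
    {D D' : X.Cycles} {f f' : Module.End W.K (W.H X)} (F : Fr W X D f) (F' : Fr W X D' f')
    {y z : W.H (X.prod X)} (hy : y ∈ Submodule.span W.K (LetterPairs Φ X e α))
    (hz : z ∈ Submodule.span W.K (LetterPairs Φ X e α)) :
    bf W (X.prod X) (ops.pull (fst X X) D + ops.pull (snd X X) D') (extSum W f f') y z =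
      bf W (X.prod X) (ops.pull (fst X X) D + ops.pull (snd X X) D) (extSum W f f) y z := by
  induction hy using Submodule.span_induction with
  | mem w hw =>
    induction hz using Submodule.span_induction with
    | mem w' hw' =>
      obtain ⟨σ, τ, x, y, hx, hy, rfl⟩ := hw
      obtain ⟨σ', τ', x', y', hx', hy', rfl⟩ := hw'
      rw [F.bf_ext F', F.bf_ext F, bf_letter hpow hsp F hx', bf_letter hpow hsp F' hy',
        bf_letter hpow hsp F hy']
    | zero => rw [map_zero, map_zero]
    | add x y _ _ hx hy => rw [map_add, map_add, hx, hy]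
    | smul t x _ hx => rw [map_smul, map_smul, hx]
  | zero => simp only [map_zero, LinearMap.zero_apply]
  | add x y _ _ hx hy => rw [map_add, map_add, LinearMap.add_apply, LinearMap.add_apply, hx, hy]
  | smul t x _ hx => rw [map_smul, map_smul, LinearMap.smul_apply, LinearMap.smul_apply, hx]

lemma form_cross (hpow : ∀ s : ℕ, 0 < s → IntermediateField.adjoin ℚ {α ^ s} = ⊤)
    (hsp : algSpan W X ⊔ Submodule.span W.K {x | ∃ σ, IsLetter Φ X e α σ x} = ⊤)
    {D D' : X.Cycles} {f f' : Module.End W.K (W.H X)} (F : Fr W X D f) (F' : Fr W X D' f')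
    {a c : W.H X} (ha : AS W X a) {y : W.H (X.prod X)}
    (hy : y ∈ Submodule.span W.K (LetterPairs Φ X e α)) :
    bf W (X.prod X) (ops.pull (fst X X) D + ops.pull (snd X X) D') (extSum W f f')
      (H281R3.HT.ext W a c) y = 0 ∧
    bf W (X.prod X) (ops.pull (fst X X) D + ops.pull (snd X X) D') (extSum W f f')
      y (H281R3.HT.ext W a c) = 0 := by
  induction hy using Submodule.span_induction with
  | mem w hw =>
    obtain ⟨σ, τ, x, y, hx, hy, rfl⟩ := hw
    rw [F.bf_ext F', F.bf_ext F', bf_alg_letter hpow hsp F hx ha, bf_letter_alg hpow F hx ha,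
      zero_mul, zero_mul]
    exact ⟨rfl, rfl⟩
  | zero => exact ⟨map_zero _, by rw [map_zero, LinearMap.zero_apply]⟩
  | add x y _ _ hx hy =>
    exact ⟨by rw [map_add, hx.1, hy.1, add_zero],
      by rw [map_add, LinearMap.add_apply, hx.2, hy.2, add_zero]⟩
  | smul t x _ hx =>
    exact ⟨by rw [map_smul, hx.1, smul_zero],
      by rw [map_smul, LinearMap.smul_apply, hx.2, smul_zero]⟩

/-- **The conjecture of Hodge type for the square with different divisors.** -/
theorem hodge_pair_simple (hu : ∀ φ : E →+* ℂ, ‖φ α‖ = 1)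
    (hpow : ∀ s : ℕ, 0 < s → IntermediateField.adjoin ℚ {α ^ s} = ⊤) (he : 0 < e)
    (hsp : algSpan W X ⊔ Submodule.span W.K {x | ∃ σ, IsLetter Φ X e α σ x} = ⊤)
    (hmult : ∀ σ, IsLine W.K {x | IsLetter Φ X e α σ x}) {D D' : X.Cycles} (hD : X.IsCyc 1 D)
    (hD' : X.IsCyc 1 D')
    (hHL : HardLefschetz W X D) (hHL' : HardLefschetz W X D') (hB : LefschetzB W X D)
    (hB' : LefschetzB W X D') (hH : HodgeType W X D) (hH' : HodgeType W X D') :
    HodgeType W (X.prod X) (ops.pull (fst X X) D + ops.pull (snd X X) D') := by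
  obtain ⟨f, F, -⟩ := exists_fr hD hHL hB
  obtain ⟨f', F', -⟩ := exists_fr hD' hHL' hB'
  have G := F.prod F'
  have G0 := F.prod F
  have hH0 : HodgeType W (X.prod X) (ops.pull (fst X X) D + ops.pull (snd X X) D) :=
    hodge_square_simple hu hpow he hsp hmult hD hHL hH
  intro j hj z hz hprim hz0
  refine (G.hodge hz fun hz0 => ?_).1 hj hprim hz0
  set y := W.cl (X.prod X) z with hy
  have hyA : AS W (X.prod X) y := AS.of ⟨z, hz, rfl⟩
  -- the splitting
  have hyT : IsTate Φ (X.prod X) j y := ⟨W.cl_mem hz, Φ.cyc hz⟩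
  obtain ⟨y', hy', y'', hy'', hyy⟩ := Submodule.mem_sup.1 (tate_split hpow hsp hyT)
  -- the orthogonal family
  have hst : Stable W X f := fun x hx => F.aop.apply hx
  obtain ⟨N, a, b, w, hab, hw, horth⟩ := exists_orthoFam (⟨F.hD, F.sl2⟩ : Lw W X D f) (fr_hom F)
    hHL hst hH
  have hcoef : ∀ i, coef W (b i) y = coef W (b i) y' := by
    intro i
    rw [← hyy, coef, add_mul, map_add]
    have h1 := coef_letter hpow (hab.hb i) hy''
    rw [coef] at h1
    rw [h1, add_zero]
    rfl
  have hrep : y' = ∑ i, H281R3.HT.ext W (a i) (coef W (b i) y) := by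
    rw [Finset.sum_congr rfl fun i _ => by rw [hcoef i]]
    refine hab.rep ?_
    refine (Submodule.span_le.2 ?_ : Submodule.span W.K (AlgPairs W X) ≤ _) hy'
    rintro _ ⟨x₁, hx₁, y₁, -, rfl⟩
    refine algSpan_induction (p := fun x₁ => H281R3.HT.ext W x₁ y₁ ∈
      Submodule.span W.K {w | ∃ x y, AS W X x ∧ w = H281R3.HT.ext W x y}) ?_ ?_ ?_ ?_ hx₁
    · rw [H281R3.HT.ext, map_zero, zero_mul]; exact Submodule.zero_mem _
    · intro u v hu hv
      rw [H281R3.HT.ext, map_add, add_mul]; exact Submodule.add_mem _ hu hv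
    · intro t u hu
      rw [H281R3.HT.ext, map_smul, smul_mul_assoc]; exact Submodule.smul_mem _ _ hu
    · intro i z' hz'
      exact Submodule.subset_span ⟨_, y₁, AS.of ⟨z', hz', rfl⟩, rfl⟩
  have hcA : ∀ i, AS W X (coef W (b i) y) := fun i => coef_AS (hab.hb i) hyA
  have hy'A : AS W (X.prod X) y' := by
    rw [hrep]
    refine AS.ratSub.sum _ fun i _ => ?_
    exact ((hab.ha i).map _).mul ((hcA i).map _)
  have hy''A : AS W (X.prod X) y'' := by
    have h1 : y'' = y + ((-1 : ℚ) : W.K) • y' := by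
      rw [← hyy]
      push_cast
      rw [neg_smul, one_smul]
      abel
    rw [h1]
    exact AS.ratSub.add hyA (hy'A.smul _)
  set c : Fin N → W.H X := fun i => coef W (b i) y with hc
  -- positivity of the parts
  have hposc : ∀ i, ∃ q : ℚ, 0 ≤ q ∧ (c i ≠ 0 → 0 < q) ∧ bf W X D' f' (c i) (c i) = q := by
    intro i
    by_cases hci : c i = 0
    · exact ⟨0, le_rfl, fun h => absurd hci h, by rw [hci]; simp⟩
    · obtain ⟨q, hq, hq'⟩ := F'.bf_pos hH' (hcA i) hci
      exact ⟨q, hq.le, fun _ => hq, hq'⟩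
  choose q hq0 hq1 hq2 using hposc
  have hpos'' : ∃ t : ℚ, 0 ≤ t ∧ (y'' ≠ 0 → 0 < t) ∧
      bf W (X.prod X) (ops.pull (fst X X) D + ops.pull (snd X X) D') (extSum W f f') y'' y'' = t := by
    by_cases h0 : y'' = 0
    · exact ⟨0, le_rfl, fun h => absurd h0 h, by rw [h0]; simp⟩
    · obtain ⟨t, ht, ht'⟩ := G0.bf_pos hH0 hy''A h0
      exact ⟨t, ht.le, fun _ => ht, by rw [form_indep hpow hsp F F' hy'' hy'', ht']⟩
  obtain ⟨t, ht0, ht1, ht2⟩ := hpos''
  have hcross : bf W (X.prod X) (ops.pull (fst X X) D + ops.pull (snd X X) D') (extSum W f f')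
      y' y'' = 0 ∧ bf W (X.prod X) (ops.pull (fst X X) D + ops.pull (snd X X) D') (extSum W f f')
      y'' y' = 0 := by
    rw [hrep]
    constructor
    · rw [map_sum, LinearMap.sum_apply]
      exact Finset.sum_eq_zero fun i _ => (form_cross hpow hsp F F' (hab.ha i) hy'').1
    · rw [map_sum]
      exact Finset.sum_eq_zero fun i _ => (form_cross hpow hsp F F' (hab.ha i) hy'').2
  have hval' : bf W (X.prod X) (ops.pull (fst X X) D + ops.pull (snd X X) D') (extSum W f f')
      y' y' = ((∑ i, w i * q i : ℚ) : W.K) := by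
    rw [hrep, map_sum]
    push_cast
    refine Finset.sum_congr rfl fun i _ => ?_
    rw [map_sum, LinearMap.sum_apply, Finset.sum_eq_single i]
    · rw [F.bf_ext F', horth, if_pos rfl]
      change _ * bf W X D' f' (c i) (c i) = _
      rw [hq2]
    · intro l _ hl
      rw [F.bf_ext F', horth, if_neg hl, zero_mul]
    · intro h; exact absurd (Finset.mem_univ _) h
  have hval : bf W (X.prod X) (ops.pull (fst X X) D + ops.pull (snd X X) D') (extSum W f f')
      y y = ((∑ i, w i * q i + t : ℚ) : W.K) := by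
    rw [← hyy]
    simp only [map_add, LinearMap.add_apply]
    rw [hcross.1, hcross.2, hval', ht2]
    push_cast
    ring
  refine ⟨_, ?_, hval⟩
  by_cases h0 : y'' = 0
  · have hex : ∃ i, c i ≠ 0 := by
      by_contra hne
      push Not at hne
      apply hz0
      rw [← hyy, h0, add_zero, hrep]
      refine Finset.sum_eq_zero fun i _ => ?_
      change H281R3.HT.ext W (a i) (c i) = 0
      rw [hne i]
      simp [H281R3.HT.ext]
    obtain ⟨i, hi⟩ := hex
    have h1 : 0 < ∑ i, w i * q i := Finset.sum_pos' (fun i _ => mul_nonneg (hw i).le (hq0 i))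
      ⟨i, Finset.mem_univ _, mul_pos (hw i) (hq1 i hi)⟩
    linarith
  · have h1 : 0 ≤ ∑ i, w i * q i := Finset.sum_nonneg fun i _ => mul_nonneg (hw i).le (hq0 i)
    have h2 := ht1 h0
    linarith

end Pool.Agent.Y103.Sq
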