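import Pool.Agent.Y103.Sq.Defs
import Pool.Agent.Y103.Sq.PairD
import Pool.Agent.Y103.Sq.Gen
import Pool.Agent.Y103.Sh.Final

/-!
# The conjecture of Hodge type for products of varieties of K3 type: conclusion
-/

set_option autoImplicit false
set_option linter.unusedSectionVars false

open CategoryTheory AlgebraicGeometry NumberField

universe u v w

namespace Pool.Agent.Y103.Sq

open Pool.Agent.H914 Pool.Agent.H914.VarClass Pool.Agent.H914.VarClass.Obj
  Pool.Agent.H914.WeilCohomology Pool.Agent.H281R3.HT Pool.Agent.W552 Pool.Agent.W534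
  Pool.Agent.W458.RK Pool.Agent.W458.MF Pool.Agent.TH132.A Pool.Agent.W536.RR
  Pool.Agent.TH121.KT Pool.Agent.Y138.KC Pool.Agent.W290.MF Pool.Agent.Y138.KH
  Pool.Agent.Y103.Hk Pool.Agent.Y103.Sh

section one

variable {k : Type u} [Field k] {𝒱 : VarClass k} {ops : CycleOps 𝒱}
  {W : WeilCohomology.{u, v} ops} {p : ℕ} {Φ : FrobSystem W p} {X : 𝒱.Obj} {e : ℕ}
  {E : Type} [Field E] {α : E}

lemma span_cycles : Submodule.span W.K (cycles W X) = algSpan W X := by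
  unfold algSpan
  congr 1
  ext a
  simp only [cycles, Set.mem_setOf_eq, Set.mem_iUnion, algClasses]
  constructor
  · rintro ⟨j, z, hz, rfl⟩
    exact ⟨j, z, hz, rfl⟩
  · rintro ⟨j, z, hz, rfl⟩
    exact ⟨j, z, hz, rfl⟩

lemma IsSpannedByNumber.sp (h : IsSpannedByNumber Φ X e α) :
    algSpan W X ⊔ Submodule.span W.K {x | ∃ σ, IsLetter Φ X e α σ x} = ⊤ := by
  rw [← h.2, Submodule.span_union, span_cycles]
  congr 2
  ext x
  simp only [Set.mem_setOf_eq, Set.mem_iUnion]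
  rfl

lemma tate_of_square (h : TateSquare Φ X) : TateIn Φ (X.prod X) X.dim := by
  rintro c ⟨hc, hs⟩
  have h1 := h c hc hs
  rw [span_cycles] at h1
  exact spanCycles_of_alg h1 hc

end one

variable {k : Type u} [Field k] {𝒱 : VarClass k} {ops : CycleOps 𝒱}
  {W : WeilCohomology.{u, v} ops} {p : ℕ} [Fact p.Prime] {Φ : FrobSystem W p}
  {ι : Qb →+* PadicAlgCl p}
  {r : ℕ} {X : Fin r → 𝒱.Obj} {e : Fin r → ℕ} {E : Fin r → Type} [∀ i, Field (E i)]
  [∀ i, NumberField (E i)] [∀ i, IsCMField (E i)]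
  {α : ∀ i, E i}

/-- a variety with a free number which has multiplicity one, or satisfies the Tate conjecture for
the square -/
theorem weilNumber_of {Y : 𝒱.Obj} {e : ℕ} {E : Type} [Field E] [NumberField E] [IsCMField E]
    {α : E} (hα : IsFreeNumber ι α) (hX : IsSpannedByNumber Φ Y e α)
    (h : (∀ σ, OnLine W.K (letters Φ Y e α σ)) ∨ TateSquare Φ Y) : HasWeilNumber Φ Y e α := by
  refine ⟨hX.1, hX.sp, ?_⟩
  have hR := noRel_free hα
  rcases h with h | h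
  · exact tate_square hR.unitary (fun s hs => gen_of_noRel hR s hs) hX.1 hX.sp h
  · exact tate_of_square h

/-- the pairs -/
theorem hodge_pair_of {P Q : Polarized 𝒱} (hPQ : P.X = Q.X) {e : ℕ} {E : Type} [Field E]
    [NumberField E] [IsCMField E] {α : E} (hα : IsFreeNumber ι α)
    (hX : IsSpannedByNumber Φ P.X e α) (h : ∀ σ, OnLine W.K (letters Φ P.X e α σ))
    (hD : P.X.IsCyc 1 P.D) (hD' : Q.X.IsCyc 1 Q.D) (hHL : HardLefschetz W P.X P.D)
    (hHL' : HardLefschetz W Q.X Q.D) (hB : LefschetzB W P.X P.D) (hB' : LefschetzB W Q.X Q.D)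
    (hH : HodgeType W P.X P.D) (hH' : HodgeType W Q.X Q.D) :
    HodgeType W (P.prod ops Q).X (P.prod ops Q).D := by
  obtain ⟨X, D⟩ := P
  obtain ⟨Y, D'⟩ := Q
  simp only at hPQ
  subst hPQ
  have hR := noRel_free hα
  exact hodge_pair_simple hR.unitary (fun s hs => gen_of_noRel hR s hs) hX.1 hX.sp h hD hD' hHL
    hHL' hB hB' hH hH'

/-- the Lefschetz conjecture for the factors -/
theorem lefschetzB_fam [IsAlgClosed W.K] (hT : ∀ i, HasWeilNumber Φ (X i) (e i) (α i))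
    {n : ℕ} {idx : Fin (n + 1) → Fin r} {D : ∀ a, (X (idx a)).Cycles}
    (hD : ∀ a, (X (idx a)).IsCyc 1 (D a)) (hHL : ∀ a, HardLefschetz W (X (idx a)) (D a))
    {𝓛 : Set (IntermediateField ℚ Qb)} {S L₀ : Fin r → IntermediateField ℚ Qb}
    (H : FamCond ι α (cnt idx) 𝓛 S L₀) (a : Fin (n + 1)) : LefschetzB W (X (idx a)) (D a) := by
  have hq : (p ^ Φ.e (X (idx a)) : ℕ) ≠ 0 := pow_ne_zero _ (Fact.out : p.Prime).ne_zero
  have hF1 : FrobeniusOnCycles W (X (idx a)) (W534.iter (Φ.Fr (X (idx a))) 1)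
      (p ^ Φ.e (X (idx a))) :=
    frob_nest (Φ.e_pos _) 0 (fun _ => (⟨X (idx a), D a⟩ : Polarized 𝒱)) (fun _ => 1)
      (fun _ => mul_one _)
  have hTp : TateClassesAlgebraic W ((X (idx a)).prod (X (idx a)))
      (pairMap (W534.iter (Φ.Fr (X (idx a))) 1) (W534.iter (Φ.Fr (X (idx a))) 1))
      (p ^ Φ.e (X (idx a))) :=
    tate_pair2 (P := (⟨X (idx a), D a⟩ : Polarized 𝒱)) (Q := (⟨X (idx a), D a⟩ : Polarized 𝒱))
      (Φ.e_pos _) (mul_one _) (mul_one _) (tate_mixed hT H a a)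
  exact W552.lefschetzB_of_tate (hD a) (hHL a) hq hF1 hTp

theorem final_hodge2 [IsAlgClosed W.K] (hα : ∀ i, IsFreeNumber ι (α i))
    (hX : ∀ i, IsSpannedByNumber Φ (X i) (e i) (α i))
    {n : ℕ} {idx : Fin (n + 1) → Fin r} {D : ∀ a, (X (idx a)).Cycles}
    (hD : ∀ a, (X (idx a)).IsCyc 1 (D a))
    (hdeg : ∀ a, 0 < (X (idx a)).V.degCycle (divPow ops (D a) (X (idx a)).dim
      (X (idx a)).V.fundCycle))
    (hHL : ∀ a, HardLefschetz W (X (idx a)) (D a))
    (hH : ∀ a, HodgeType W (X (idx a)) (D a))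
    (hX2 : ∀ i, (∀ σ, OnLine W.K (letters Φ (X i) (e i) (α i) σ)) ∨ (TateSquare Φ (X i) ∧
      ∀ a b, idx a = i → idx b = i →
      HodgeType W ((⟨X (idx a), D a⟩ : Polarized 𝒱).prod ops ⟨X (idx b), D b⟩).X
        ((⟨X (idx a), D a⟩ : Polarized 𝒱).prod ops ⟨X (idx b), D b⟩).D))
    {𝓛 : Set (IntermediateField ℚ Qb)} {L₀ : Fin r → IntermediateField ℚ Qb}
    (hL₀ : ∀ i, IsStable (L₀ i) ∧ SmallIntersection (E i) (L₀ i) (copies idx i))
    (h𝓛 : ∀ i, ∀ L ∈ 𝓛, IsAllowed (E i) (L₀ i) L)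
    (hE : ∀ i j, i < j → IsAllowed (E i) (L₀ i) (galoisClosure (E j))) :
    HomIsNum W (nest ops n (fun a => (⟨X (idx a), D a⟩ : Polarized 𝒱))).X ∧
    HodgeType W (nest ops n (fun a => (⟨X (idx a), D a⟩ : Polarized 𝒱))).X
      (nest ops n (fun a => (⟨X (idx a), D a⟩ : Polarized 𝒱))).D ∧
    ∀ U : Polarized 𝒱, HasSlopes Φ ι 𝓛 U.X → U.X.IsCyc 1 U.D → HardLefschetz W U.X U.D →
      (HodgeType W ((nest ops n (fun a => (⟨X (idx a), D a⟩ : Polarized 𝒱))).prod ops U).X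
        ((nest ops n (fun a => (⟨X (idx a), D a⟩ : Polarized 𝒱))).prod ops U).D ↔
        HodgeType W U.X U.D) := by
  have hT : ∀ i, HasWeilNumber Φ (X i) (e i) (α i) := fun i =>
    weilNumber_of (hα i) (hX i) ((hX2 i).imp_right And.left)
  have H : FamCond ι α (cnt idx) 𝓛 (fun i => galoisClosure (E i)) L₀ := famCond_of hα hL₀ h𝓛 hE
  have hB := lefschetzB_fam hT hD hHL H
  refine final_hodge hα hT hD hdeg hHL ?_ hL₀ h𝓛 hE
  intro a b hab
  rcases hX2 (idx a) with h | ⟨-, h⟩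
  · exact hodge_pair_of (P := ⟨X (idx a), D a⟩) (Q := ⟨X (idx b), D b⟩) (congrArg X hab)
      (hα (idx a)) (hX (idx a)) h (hD a) (hD b) (hHL a) (hHL b) (hB a) (hB b) (hH a) (hH b)
  · exact h a b rfl hab.symm

end Pool.Agent.Y103.Sq
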