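import Pool.Agent.H914R2.HodgeDefs
import Mathlib.LinearAlgebra.Matrix.Charpoly.Basic
import Mathlib.LinearAlgebra.Charpoly.ToMatrix
import Mathlib.LinearAlgebra.Eigenspace.Basic
import Mathlib.FieldTheory.Separable
import Mathlib.NumberTheory.NumberField.InfinitePlace.Embeddings

/-!
# Linear algebra: simple spectrum and weights
-/

set_option autoImplicit false

open Polynomial Module

namespace Pool.Agent.Y103.Sq

open Pool.Agent.H914

/-- An operator with a basis of eigenvectors for different eigenvalues has a squarefree
characteristic polynomial. -/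
lemma squarefree_charpoly {K V ι : Type*} [Field K] [AddCommGroup V] [Module K V] [Fintype ι]
    [DecidableEq ι] [Module.Finite K V] (A : End K V) (b : Basis ι K V) (ν : ι → K)
    (h : ∀ i, A (b i) = ν i • b i)
    (hν : Function.Injective ν) : Squarefree A.charpoly := by
  have h1 : LinearMap.toMatrix b b A = Matrix.diagonal ν := by
    ext i j
    rw [LinearMap.toMatrix_apply, h, map_smul, Basis.repr_self, Finsupp.smul_apply,
      Finsupp.single_apply, Matrix.diagonal_apply, smul_eq_mul]
    by_cases hij : i = j
    · rw [if_pos hij, if_pos hij.symm, hij, mul_one]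
    · rw [if_neg hij, if_neg (Ne.symm hij), mul_zero]
  rw [← LinearMap.charpoly_toMatrix A b, h1, Matrix.charpoly_diagonal]
  exact (separable_prod_X_sub_C_iff.2 hν).squarefree

/-- The restriction of an operator to the span of a family of eigenvectors whose eigenvalues,
for all powers, are different. -/
lemma simpleOn_of_family {K V ι : Type*} [Field K] [CharZero K] [AddCommGroup V] [Module K V]
    [Module.Finite K V] [Finite ι] (F : End K V) (U : Submodule K V) (v : ι → V) (μ : ι → K)
    (hv0 : ∀ i, v i ≠ 0) (hv : ∀ i, F (v i) = μ i • v i) (hU : U = Submodule.span K (Set.range v))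
    (hμ : ∀ m ≥ 1, Function.Injective fun i => μ i ^ m) : SimpleOn F U := by
  classical
  have := Fintype.ofFinite ι
  subst hU
  have hst : ∀ a ∈ Submodule.span K (Set.range v), F a ∈ Submodule.span K (Set.range v) := by
    intro a ha
    induction ha using Submodule.span_induction with
    | mem x hx =>
      obtain ⟨i, rfl⟩ := hx
      rw [hv]
      exact Submodule.smul_mem _ _ (Submodule.subset_span ⟨i, rfl⟩)
    | zero => rw [map_zero]; exact Submodule.zero_mem _
    | add x y _ _ hx hy => rw [map_add]; exact Submodule.add_mem _ hx hy
    | smul c x _ hx => rw [map_smul]; exact Submodule.smul_mem _ _ hx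
  refine ⟨hst, fun m hm => ?_⟩
  have hμ1 : Function.Injective μ := fun i j h => hμ m hm (by simp only [h])
  have hli : LinearIndependent K v := by
    refine Module.End.eigenvectors_linearIndependent' F μ hμ1 v fun i => ?_
    exact ⟨Module.End.mem_eigenspace_iff.2 (hv i), hv0 i⟩
  let b := Basis.span hli
  have hb : ∀ i, ((b i : Submodule.span K (Set.range v)) : V) = v i := fun i => by
    rw [show b i = ⟨v i, _⟩ from Basis.span_apply hli i]
  refine squarefree_charpoly _ b (fun i => μ i ^ m) (fun i => ?_) (hμ m hm)
  have h1 : ∀ n : ℕ, ((F.restrict hst) ^ n) (b i) = μ i ^ n • b i := by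
    intro n
    induction n with
    | zero => rw [pow_zero, pow_zero, one_smul]; rfl
    | succ n ih =>
      rw [pow_succ', Module.End.mul_apply, ih, map_smul, pow_succ, mul_smul]
      congr 1
      apply Subtype.ext
      rw [LinearMap.coe_restrict_apply, Submodule.coe_smul, hb, hv]
  exact h1 m

/-- Weights and spanning sets. -/
lemma hasWeight_of_span {K V : Type*} [Field K] [CharZero K] [AddCommGroup V] [Module K V]
    [Module.Finite K V] {F : End K V} {U : Submodule K V} {w : ℝ} {S : Set V}
    (hU : U ≤ Submodule.span K S)
    (hS : ∀ x ∈ S, ∃ P : ℚ[X], P ≠ 0 ∧ aeval F (P.map (algebraMap ℚ K)) x = 0 ∧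
      ∀ z : ℂ, aeval z P = 0 → ‖z‖ ^ 2 = w) : HasWeight F U w := by
  classical
  have key : ∀ T : Finset V, (T : Set V) ⊆ S → HasWeight F (Submodule.span K (T : Set V)) w := by
    intro T
    induction T using Finset.induction_on with
    | empty =>
      intro _
      refine ⟨1, one_ne_zero, ?_, ?_⟩
      · intro a ha
        rw [Finset.coe_empty, Submodule.span_empty, Submodule.mem_bot] at ha
        rw [ha, map_zero]
      · intro z hz
        rw [map_one] at hz
        exact absurd hz one_ne_zero
    | insert x T hx ih =>
      intro hT
      rw [Finset.coe_insert] at hT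
      obtain ⟨P, hP0, hP, hPz⟩ := ih ((Set.subset_insert _ _).trans hT)
      obtain ⟨R, hR0, hR, hRz⟩ := hS x (hT (Set.mem_insert _ _))
      refine ⟨P * R, mul_ne_zero hP0 hR0, ?_, ?_⟩
      · intro a ha
        rw [Finset.coe_insert] at ha
        rw [Polynomial.map_mul]
        induction ha using Submodule.span_induction with
        | mem y hy =>
          rcases hy with rfl | hy
          · rw [map_mul, Module.End.mul_apply, hR, map_zero]
          · rw [mul_comm, map_mul, Module.End.mul_apply, hP y (Submodule.subset_span hy), map_zero]
        | zero => rw [map_zero]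
        | add x y _ _ hx hy => rw [map_add, hx, hy, add_zero]
        | smul c x _ hx => rw [map_smul, hx, smul_zero]
      · intro z hz
        rw [map_mul, mul_eq_zero] at hz
        exact hz.elim (hPz z) (hRz z)
  obtain ⟨B, hB⟩ : U.FG := IsNoetherian.noetherian _
  have hfin : ∀ B : Finset V, (B : Set V) ⊆ Submodule.span K S →
      ∃ T : Finset V, (T : Set V) ⊆ S ∧ (B : Set V) ⊆ Submodule.span K (T : Set V) := by
    intro B
    induction B using Finset.induction_on with
    | empty => exact fun _ => ⟨∅, by simp, by simp⟩
    | insert a B ha ih =>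
      intro h
      rw [Finset.coe_insert] at h
      obtain ⟨T, h1, h2⟩ := ih ((Set.subset_insert _ _).trans h)
      obtain ⟨T', h3, h4⟩ := Submodule.mem_span_finite_of_mem_span (h (Set.mem_insert _ _))
      refine ⟨T ∪ T', ?_, ?_⟩
      · rw [Finset.coe_union]
        exact Set.union_subset h1 h3
      · intro x hx
        rw [Finset.coe_insert] at hx
        rcases hx with rfl | hx
        · refine Submodule.span_mono ?_ h4
          rw [Finset.coe_union]
          exact Set.subset_union_right
        · refine Submodule.span_mono ?_ (h2 hx)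
          rw [Finset.coe_union]
          exact Set.subset_union_left
  obtain ⟨T, hTS, hBT⟩ := hfin B (fun x hx => hU (hB ▸ Submodule.subset_span hx))
  obtain ⟨P, hP0, hP, hPz⟩ := key T hTS
  refine ⟨P, hP0, fun a ha => hP a ?_, hPz⟩
  rw [← hB] at ha
  exact (Submodule.span_le.2 hBT) ha

end Pool.Agent.Y103.Sq
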