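import Pool.Agent.Y103.Hk.Pair

/-!
# Algebraic classes on `X × X` of rank one, in all degrees
-/

set_option autoImplicit false
set_option linter.unusedSectionVars false

open CategoryTheory AlgebraicGeometry

universe u v

namespace Pool.Agent.Y103.Sq

open Pool.Agent.H914 Pool.Agent.H914.VarClass Pool.Agent.H914.VarClass.Obj
  Pool.Agent.H914.WeilCohomology Pool.Agent.H281R3.HT Pool.Agent.W552 Pool.Agent.W534
  Pool.Agent.W458.RK Pool.Agent.W458.MF Pool.Agent.TH132.A Pool.Agent.W536.RR
  Pool.Agent.TH121.KT Pool.Agent.Y103.Hk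

variable {k : Type u} [Field k] {𝒱 : VarClass k} {ops : CycleOps 𝒱}
  {W : WeilCohomology.{u, v} ops} {X Y Z : 𝒱.Obj}

/-- a partner in the complementary degree -/
lemma exists_partner' {a a' : ℕ} (haa : a + a' = 2 * X.dim) {v : W.H X} (hv : v ∈ W.gr X a)
    (hv0 : v ≠ 0) : ∃ v' ∈ W.gr X a', W.tr X (v * v') = 1 := by
  have h1 : ∃ c ∈ W.gr X a', W.tr X (v * c) ≠ 0 := by
    by_contra hcon
    push Not at hcon
    apply hv0
    apply W.nondeg
    intro c
    refine gr_induction (W.isInternal X) (p := fun c => W.tr X (v * c) = 0) ?_ ?_ c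
    · intro l c hc
      by_cases hl : l = a'
      · subst hl
        exact hcon c hc
      · exact W.tr_eq_zero (W.mul_mem hv hc) (by omega)
    · intro c c' hc hc'
      rw [mul_add, map_add, hc, hc', add_zero]
  obtain ⟨c, hc, hne⟩ := h1
  refine ⟨(W.tr X (v * c))⁻¹ • c, Submodule.smul_mem _ _ hc, ?_⟩
  rw [mul_smul_comm, map_smul, smul_eq_mul, inv_mul_cancel₀ hne]

/-- **Rank one.** An algebraic class on `X × X` whose action on the cohomology has values in the
line of `v` is a multiple of an external product. -/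
lemma rank_one' {r : W.H (X.prod X)} {a a' : ℕ} (haa : a + a' = 2 * X.dim) {v : W.H X}
    (hv : v ∈ W.gr X a) (hv0 : v ≠ 0)
    (hR : ∀ y, ∃ t : W.K, W.corr r y = t • v)
    (hR0 : ∀ l, l ≠ a' → ∀ y ∈ W.gr X l, W.corr r y = 0) :
    ∃ w ∈ W.gr X a, ext W w v = (-1 : W.K) ^ (a * a') • r ∧
      ∀ y, W.corr r y = W.tr X (w * y) • v := by
  obtain ⟨v', hv', hvv⟩ := exists_partner' haa hv hv0
  set w₀ : W.H X := W.push (fst X X) (r * W.map (snd X X) v') with hw₀
  set w : W.H X := (-1 : W.K) ^ (a' * a') • proj (W.isInternal X) a w₀ with hw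
  have hwmem : w ∈ W.gr X a := Submodule.smul_mem _ _ (proj_mem _ _ _)
  have hpr : ∀ y ∈ W.gr X a', ∀ z, W.tr X (proj (W.isInternal X) a z * y) = W.tr X (z * y) := by
    intro y hy z
    refine gr_induction (W.isInternal X) (p := fun z => W.tr X (proj (W.isInternal X)
          a z * y) = W.tr X (z * y)) ?_ ?_ z
    · intro l' z hz
      by_cases hl' : l' = a
      · subst hl'
        rw [proj_same _ hz]
      · rw [proj_ne _ hz hl', zero_mul, map_zero,
          W.tr_eq_zero (W.mul_mem hz hy) (by omega)]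
    · intro z z' hz hz'
      rw [map_add, add_mul, add_mul, map_add, map_add, hz, hz']
  have hgood : ∀ y ∈ W.gr X a', W.tr X (w * y) = W.tr X (W.corr r y * v') := by
    intro y hy
    rw [hw, smul_mul_assoc, map_smul, hpr y hy, hw₀, W.tr_push, corr_apply, W.tr_push, mul_assoc,
      mul_assoc, W.comm (W.map_mem (snd X X) hv') (W.map_mem (fst X X) hy), mul_smul_comm, map_smul,
      smul_smul, ← pow_add, ← two_mul, pow_mul, neg_one_sq, one_pow, one_smul]
  have h2 : ∀ y, W.corr r y = W.tr X (w * y) • v := by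
    intro y
    refine gr_induction (W.isInternal X) (p := fun y => W.corr r y = W.tr X (w * y) • v) ?_ ?_ y
    · intro l y hy
      by_cases hl : l = a'
      · subst hl
        obtain ⟨t, ht⟩ := hR y
        rw [hgood y hy, ht, smul_mul_assoc, map_smul, hvv, smul_eq_mul, mul_one]
      · rw [hR0 l hl y hy, W.tr_eq_zero (W.mul_mem hwmem hy) (by omega), zero_smul]
    · intro y y' hy hy'
      rw [map_add, mul_add, map_add, add_smul, hy, hy']
  refine ⟨w, hwmem, ?_, h2⟩
  rw [← sub_eq_zero]
  apply corr_inj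
  apply LinearMap.ext
  intro y
  rw [corr_sub'', LinearMap.sub_apply, corr_smul, LinearMap.smul_apply, LinearMap.zero_apply,
    sub_eq_zero]
  refine gr_induction (W.isInternal X) (p := fun y => W.corr (ext W w v) y =
    (-1 : W.K) ^ (a * a') • W.corr r y) ?_ ?_ y
  · intro l y hy
    rw [h2, corr_apply, H281R3.HT.ext, mul_assoc,
      W.comm (W.map_mem (snd X X) hv) (W.map_mem (fst X X) hy), mul_smul_comm, ← mul_assoc,
      ← map_mul, map_smul, push_snd]
    by_cases hl : l = a'
    · rw [hl]
    · rw [W.tr_eq_zero (W.mul_mem hwmem hy) (by omega), zero_smul, smul_zero, smul_zero]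
  · intro y y' hy hy'
    rw [map_add, map_add, smul_add, hy, hy']

end Pool.Agent.Y103.Sq
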