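import Pool.Agent.Y103.Sq.Tate
import Pool.Agent.Y103.Sq.Lin
import Pool.Agent.H914R2.GConv3

/-!
# Simple spectrum and the Riemann hypothesis from a Weil number of multiplicity one
-/

set_option autoImplicit false
set_option linter.unusedSectionVars false

open CategoryTheory AlgebraicGeometry NumberField Polynomial

universe u v

namespace Pool.Agent.Y103.Sq

open Pool.Agent.H914 Pool.Agent.H914.VarClass Pool.Agent.H914.VarClass.Obj
  Pool.Agent.H914.WeilCohomology Pool.Agent.H281R3.HT Pool.Agent.W552 Pool.Agent.W534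
  Pool.Agent.W458.RK Pool.Agent.W458.MF Pool.Agent.TH132.A Pool.Agent.W536.RR
  Pool.Agent.TH121.KT Pool.Agent.Y138.KH Pool.Agent.Y103.Hk

variable {k : Type u} [Field k] {𝒱 : VarClass k} {ops : CycleOps 𝒱}
  {W : WeilCohomology.{u, v} ops} {X Y Z : 𝒱.Obj} {p : ℕ} {Φ : FrobSystem W p} {e : ℕ}
  {E : Type} [Field E] [NumberField E] [IsCMField E] {α : E}

lemma iter_eig' {x : W.H X} {μ : W.K} (h : W.map (Φ.Fr X) x = μ • x) (m : ℕ) :
    W.map (W534.iter (Φ.Fr X) m) x = μ ^ m • x := by
  rw [W534.map_iter]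
  induction m with
  | zero => rw [pow_zero, one_smul]; rfl
  | succ r ih => rw [Function.iterate_succ_apply', ih, map_smul, h, smul_smul, pow_succ]

/-- letters are orthogonal to algebraic classes -/
lemma letter_orth (hpow : ∀ s : ℕ, 0 < s → IntermediateField.adjoin ℚ {α ^ s} = ⊤)
    {σ : E →+* W.K} {x c : W.H X} (hx : IsLetter Φ X e α σ x) (hc : c ∈ algSpan W X) :
    W.tr X (x * c) = 0 := by
  obtain ⟨r, hr, hlev⟩ := exists_level Φ X
  obtain ⟨μ, N, hN, hμ, hrel⟩ := letter_level hx r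
  set Q : W.K := (card Φ X r : W.K) with hQ
  have hQ0 : Q ≠ 0 := card_ne Φ r
  refine algSpan_induction (p := fun c => W.tr X (x * c) = 0) ?_ ?_ ?_ ?_ hc
  · rw [mul_zero, map_zero]
  · intro a b ha hb
    rw [mul_add, map_add, ha, hb, add_zero]
  · intro t a ha
    rw [mul_smul_comm, map_smul, ha, smul_zero]
  · intro j z hz
    by_cases hj : j ≤ X.dim
    · by_contra hne
      have h1 : frob Φ X r (W.cl X z) = Q ^ j • W.cl X z := by
        have := hlev 1 j _ (Submodule.subset_span ⟨j, rfl, z, hz, rfl⟩)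
        rwa [mul_one] at this
      have h2 : W.tr X (frob Φ X r (x * W.cl X z)) = Q ^ X.dim * W.tr X (x * W.cl X z) := by
        rw [frob_apply, tr_iter, hQ, card_pow]
      have h3 : frob Φ X r (x * W.cl X z) = (μ * Q ^ j) • (x * W.cl X z) := by
        rw [frob_apply, map_mul]
        change frob Φ X r x * frob Φ X r (W.cl X z) = _
        rw [hμ, h1, smul_mul_smul_comm]
      rw [h3, map_smul, smul_eq_mul] at h2
      have h4 := mul_right_cancel₀ hne h2
      have h5 : μ = Q ^ (X.dim - j) := by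
        have h6 : Q ^ X.dim = Q ^ (X.dim - j) * Q ^ j := by
          rw [← pow_add]; congr 1; omega
        rw [h6] at h4
        exact mul_right_cancel₀ (pow_ne_zero _ hQ0) h4
      rw [h5] at hrel
      exact letter_not_alg hpow hr hQ0 hN hrel
    · have h1 := W.cl_mem hz
      rw [W.gr_eq_bot X _ (by omega)] at h1
      rw [(Submodule.mem_bot _).1 h1, mul_zero, map_zero]

lemma alg_even {a : W.H X} (ha : a ∈ algSpan W X) (b : W.H X) : a * b = b * a := by
  refine algSpan_induction (p := fun a => a * b = b * a) ?_ ?_ ?_ ?_ ha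
  · rw [zero_mul, mul_zero]
  · intro x y hx hy
    rw [add_mul, mul_add, hx, hy]
  · intro t x hx
    rw [smul_mul_assoc, mul_smul_comm, hx]
  · intro j z hz
    exact W.even_comm (W.cl_mem hz) b

lemma span_letter_orth (hpow : ∀ s : ℕ, 0 < s → IntermediateField.adjoin ℚ {α ^ s} = ⊤)
    {x c : W.H X} (hx : x ∈ Submodule.span W.K {x | ∃ σ, IsLetter Φ X e α σ x})
    (hc : c ∈ algSpan W X) : W.tr X (x * c) = 0 := by
  induction hx using Submodule.span_induction with
  | mem x hx =>
    obtain ⟨σ, hx⟩ := hx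
    exact letter_orth hpow hx hc
  | zero => rw [zero_mul, map_zero]
  | add x y _ _ hx hy => rw [add_mul, map_add, hx, hy, add_zero]
  | smul t x _ hx => rw [smul_mul_assoc, map_smul, hx, smul_zero]

/-- **The transcendental part is spanned by the letters.** -/
theorem transcendental_eq (hpow : ∀ s : ℕ, 0 < s → IntermediateField.adjoin ℚ {α ^ s} = ⊤)
    (hsp : algSpan W X ⊔ Submodule.span W.K {x | ∃ σ, IsLetter Φ X e α σ x} = ⊤) :
    H914.transcendental W X = Submodule.span W.K {x | ∃ σ, IsLetter Φ X e α σ x} := by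
  have hmem : ∀ x, x ∈ H914.transcendental W X ↔ ∀ c ∈ algSpan W X, W.tr X (x * c) = 0 := by
    intro x
    unfold H914.transcendental orthCompl
    simp only [Submodule.mem_iInf, LinearMap.mem_ker, LinearMap.comp_apply,
      LinearMap.mulRight_apply, Set.mem_iUnion]
    constructor
    · intro h c hc
      refine algSpan_induction (p := fun c => W.tr X (x * c) = 0) ?_ ?_ ?_ ?_ hc
      · rw [mul_zero, map_zero]
      · intro a b ha hb
        rw [mul_add, map_add, ha, hb, add_zero]
      · intro t a ha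
        rw [mul_smul_comm, map_smul, ha, smul_zero]
      · intro j z hz
        exact h _ ⟨j, z, hz, rfl⟩
    · rintro h c ⟨j, z, hz, rfl⟩
      exact h _ (cl_mem_algSpan hz)
  apply le_antisymm
  · intro t ht
    rw [hmem] at ht
    have h1 : t ∈ algSpan W X ⊔ Submodule.span W.K {x | ∃ σ, IsLetter Φ X e α σ x} := by
      rw [hsp]; exact Submodule.mem_top
    obtain ⟨a, ha, l, hl, rfl⟩ := Submodule.mem_sup.1 h1
    have h2 : a = 0 := by
      apply W.nondeg
      intro y
      have hy : y ∈ algSpan W X ⊔ Submodule.span W.K {x | ∃ σ, IsLetter Φ X e α σ x} := by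
        rw [hsp]; exact Submodule.mem_top
      obtain ⟨a', ha', l', hl', rfl⟩ := Submodule.mem_sup.1 hy
      have h3 := ht a' ha'
      rw [add_mul, map_add, span_letter_orth hpow hl ha', add_zero] at h3
      rw [mul_add, map_add, h3, alg_even ha, span_letter_orth hpow hl' ha, add_zero]
    rw [h2, zero_add]
    exact hl
  · intro x hx
    rw [hmem]
    exact fun c hc => span_letter_orth hpow hx hc

/-- **Simple spectrum.** -/
theorem simpleSpectrum (hpow : ∀ s : ℕ, 0 < s → IntermediateField.adjoin ℚ {α ^ s} = ⊤)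
    (hsp : algSpan W X ⊔ Submodule.span W.K {x | ∃ σ, IsLetter Φ X e α σ x} = ⊤)
    (hmult : ∀ σ, IsLine W.K {x | IsLetter Φ X e α σ x}) : SimpleSpectrum W X (Φ.Fr X) := by
  classical
  have hS : ∀ i : {σ : E →+* W.K // ∃ v : W.H X, IsLetter Φ X e α σ v ∧ v ≠ 0},
    ∃ v : W.H X, IsLetter Φ X e α i.1 v ∧ v ≠ 0 := fun i => i.2
  choose v hv hv0 using hS
  choose μ N hN hμ hrel using fun i => (hv i).2
  have hfin : Finite {σ : E →+* W.K // ∃ v : W.H X, IsLetter Φ X e α σ v ∧ v ≠ 0} :=
    Subtype.finite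
  refine simpleOn_of_family (W.map (Φ.Fr X)).toLinearMap _ v μ hv0 hμ ?_ ?_
  · rw [transcendental_eq hpow hsp]
    apply le_antisymm
    · rw [Submodule.span_le]
      rintro x ⟨σ, hx⟩
      by_cases hx0 : x = 0
      · rw [hx0]; exact Submodule.zero_mem _
      · obtain ⟨t, ht⟩ := hmult σ x hx (v ⟨σ, x, hx, hx0⟩) (hv _) (hv0 _)
        rw [ht]
        exact Submodule.smul_mem _ _ (Submodule.subset_span ⟨_, rfl⟩)
    · rw [Submodule.span_le]
      rintro _ ⟨i, rfl⟩
      exact Submodule.subset_span ⟨i.1, hv i⟩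
  · intro m hm i j hij
    have hlev : ∀ i, ∃ N', 0 < N' ∧ (μ i ^ m) ^ (2 * e * N') =
        (card Φ X m : W.K) ^ (X.dim * (e * N')) * i.1 α ^ (2 * N' * m) := by
      intro i
      obtain ⟨μ', N', hN', hμ', hrel'⟩ := letter_level (hv i) m
      have h1 : frob Φ X m (v i) = μ i ^ m • v i := by
        rw [frob_apply]
        exact iter_eig' (hμ i) m
      rw [hμ'] at h1
      rw [← smul_left_injective W.K (hv0 i) h1]
      exact ⟨N', hN', hrel'⟩
    obtain ⟨N₁, hN₁, h1⟩ := hlev i
    obtain ⟨N₂, hN₂, h2⟩ := hlev j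
    simp only at hij
    rw [← hij] at h2
    exact Subtype.ext (letter_sep hpow hm (card_ne Φ m) hN₁ hN₂ h1 h2)

/-- a spanning set in one degree -/
lemma gr_le_span (hsp : algSpan W X ⊔ Submodule.span W.K {x | ∃ σ, IsLetter Φ X e α σ x} = ⊤)
    (i : ℕ) : W.gr X i ≤ Submodule.span W.K (Base Φ X e α ∩ W.gr X i) := by
  intro y hy
  rw [← proj_same (W.isInternal X) hy]
  have h1 : y ∈ Submodule.span W.K (Base Φ X e α) := by
    rw [span_base hsp]; exact Submodule.mem_top
  clear hy
  induction h1 using Submodule.span_induction with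
  | mem x hx =>
    have h2 : ∃ d, x ∈ W.gr X d := by
      rcases hx with ⟨j, hx⟩ | ⟨σ, hx⟩
      · exact ⟨2 * j, span_gr hx⟩
      · exact ⟨X.dim, hx.1⟩
    obtain ⟨d, hd⟩ := h2
    by_cases h : i = d
    · subst h
      rw [proj_same _ hd]
      exact Submodule.subset_span ⟨hx, hd⟩
    · rw [proj_ne _ hd (Ne.symm h)]
      exact Submodule.zero_mem _
  | zero => rw [map_zero]; exact Submodule.zero_mem _
  | add x y _ _ hx hy => rw [map_add]; exact Submodule.add_mem _ hx hy
  | smul c x _ hx => rw [map_smul]; exact Submodule.smul_mem _ _ hx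

lemma degree_unique {x : W.H X} {i j : ℕ} (hi : x ∈ W.gr X i) (hj : x ∈ W.gr X j) (hx : x ≠ 0) :
    i = j := by
  by_contra h
  apply hx
  rw [← proj_same (W.isInternal X) hi, proj_ne _ hj (Ne.symm h)]

/-- **The Riemann hypothesis.** -/
theorem riemann (hu : ∀ φ : E →+* ℂ, ‖φ α‖ = 1) (he : 0 < e)
    (hsp : algSpan W X ⊔ Submodule.span W.K {x | ∃ σ, IsLetter Φ X e α σ x} = ⊤) :
    RiemannHypothesis W X (Φ.Fr X) (p ^ Φ.e X) := by
  intro i
  have hp0 : (0 : ℝ) < (p : ℝ) := by exact_mod_cast Φ.p_pos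
  have hpQ : (p : ℚ) ≠ 0 := by exact_mod_cast Φ.p_pos.ne'
  refine hasWeight_of_span (gr_le_span hsp i) ?_
  rintro x ⟨hx, hxi⟩
  by_cases hx0 : x = 0
  · refine ⟨Polynomial.X ^ 2 - C ((p : ℚ) ^ (Φ.e X * i)), X_pow_sub_C_ne_zero two_pos _, ?_, ?_⟩
    · rw [hx0, map_zero]
    · intro z hz
      rw [map_sub, map_pow, aeval_X, aeval_C, sub_eq_zero] at hz
      rw [← norm_pow, hz]
      simp [pow_mul]
  rcases hx with ⟨j, hx⟩ | ⟨σ, hx⟩
  · obtain rfl := degree_unique hxi (span_gr hx) hx0
    obtain ⟨r, hr, hlev⟩ := exists_level Φ X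
    have h1 := hlev 1 j x hx
    rw [mul_one] at h1
    have h2 : frob Φ X r = (W.map (Φ.Fr X)).toLinearMap ^ r := frob_pow_eq' _ _
    refine ⟨Polynomial.X ^ r - C ((p : ℚ) ^ (Φ.e X * r * j)), X_pow_sub_C_ne_zero hr _, ?_, ?_⟩
    · rw [Polynomial.map_sub, Polynomial.map_pow, Polynomial.map_X, Polynomial.map_C, map_sub,
        map_pow, aeval_X, aeval_C, LinearMap.sub_apply, ← h2, h1, Module.algebraMap_end_apply,
        card_pow, map_pow, map_natCast, sub_self]
    · intro z hz
      rw [map_sub, map_pow, aeval_X, aeval_C, sub_eq_zero] at hz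
      have h3 : ‖z‖ ^ r = ((p : ℝ) ^ (Φ.e X * j)) ^ r := by
        rw [← norm_pow, hz]
        simp
        rw [← pow_mul]
        congr 1
        ring
      rw [(pow_left_inj₀ (norm_nonneg _) (by positivity) hr.ne').1 h3]
      push_cast
      rw [← pow_mul, ← pow_mul]
      congr 1
      ring
  · obtain rfl := degree_unique hxi hx.1 hx0
    obtain ⟨-, μ, N, hN, hμ, hrel⟩ := hx
    set γ : E := (p : E) ^ (Φ.e X * (X.dim * (e * N))) * α ^ (2 * N) with hγ
    have hint : IsIntegral ℚ γ := Algebra.IsIntegral.isIntegral γ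
    have hm0 : minpoly ℚ γ ≠ 0 := minpoly.ne_zero hint
    have he2 : 0 < 2 * e * N := by positivity
    refine ⟨Polynomial.expand ℚ (2 * e * N) (minpoly ℚ γ), ?_, ?_, ?_⟩
    · rwa [Ne, Polynomial.expand_eq_zero he2]
    · have h1 : (W.map (Φ.Fr X)).toLinearMap x = μ • x := hμ
      rw [Hk.aeval_eig h1, Polynomial.map_expand, Polynomial.expand_eval, hrel]
      have h2 : (p : W.K) ^ (Φ.e X * (X.dim * (e * N))) * σ α ^ (2 * N) = σ γ := by
        rw [hγ, map_mul, map_pow, map_pow, map_natCast]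
      have h3 : (Polynomial.map (algebraMap ℚ W.K) (minpoly ℚ γ)).eval (σ γ) = 0 := by
        rw [Polynomial.eval_map_algebraMap]
        have h4 : aeval (σ.toRatAlgHom γ) (minpoly ℚ γ) = 0 := by
          rw [Polynomial.aeval_algHom_apply, minpoly.aeval, map_zero]
        exact h4
      rw [h2, h3, zero_smul]
    · intro z hz
      rw [Polynomial.expand_aeval] at hz
      have h3 : z ^ (2 * e * N) ∈ (minpoly ℚ γ).rootSet ℂ := by
        rw [Polynomial.mem_rootSet]
        exact ⟨hm0, hz⟩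
      rw [← NumberField.Embeddings.range_eval_eq_rootSet_minpoly] at h3
      obtain ⟨φ, hφ⟩ := h3
      simp only at hφ
      have h4 : ‖z‖ ^ (2 * e * N) = (p : ℝ) ^ (Φ.e X * (X.dim * (e * N))) := by
        rw [← norm_pow, ← hφ, hγ, map_mul, map_pow, map_pow, map_natCast, norm_mul, norm_pow,
          norm_pow, hu, one_pow, mul_one, Complex.norm_natCast]
      have h5 : (‖z‖ ^ 2) ^ (e * N) = ((p : ℝ) ^ (Φ.e X * X.dim)) ^ (e * N) := by
        rw [← pow_mul, ← pow_mul, show 2 * (e * N) = 2 * e * N by ring, h4]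
        congr 1
        ring
      rw [(pow_left_inj₀ (by positivity) (by positivity) (by positivity)).1 h5]
      push_cast
      rw [← pow_mul]

end Pool.Agent.Y103.Sq
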