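import Pool.Agent.Y103.Sq.Simple

/-!
# The Tate classes on the square
-/

set_option autoImplicit false
set_option linter.unusedSectionVars false

open CategoryTheory AlgebraicGeometry NumberField Polynomial

universe u v

namespace Pool.Agent.Y103.Sq

open Pool.Agent.H914 Pool.Agent.H914.VarClass Pool.Agent.H914.VarClass.Obj
  Pool.Agent.H914.WeilCohomology Pool.Agent.H281R3.HT Pool.Agent.W552 Pool.Agent.W534
  Pool.Agent.W458.RK Pool.Agent.W458.MF Pool.Agent.TH132.A Pool.Agent.W536.RR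
  Pool.Agent.TH121.KT Pool.Agent.Y138.KH Pool.Agent.Y103.Hk

variable {k : Type u} [Field k] {𝒱 : VarClass k} {ops : CycleOps 𝒱}
  {W : WeilCohomology.{u, v} ops} {X Y Z : 𝒱.Obj} {p : ℕ} {Φ : FrobSystem W p} {e : ℕ}
  {E : Type} [Field E] [NumberField E] [IsCMField E] {α : E}

lemma letter_not_rat (hpow : ∀ s : ℕ, 0 < s → IntermediateField.adjoin ℚ {α ^ s} = ⊤)
    {r d : ℕ} (hr : 0 < r) {q : ℕ} (hQ : (q : W.K) ≠ 0) {σ : E →+* W.K} {N : ℕ}
    (hN : 0 < N) {c : ℚ}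
    (h1 : (c : W.K) ^ (2 * e * N) = (q : W.K) ^ (d * (e * N)) * σ α ^ (2 * N * r)) :
    False := by
  refine not_rat hpow σ (s := 2 * N * r) (by positivity)
    (c ^ (2 * e * N) * ((q : ℚ) ^ (d * (e * N)))⁻¹) ?_
  rw [map_pow, Rat.cast_mul, Rat.cast_inv, Rat.cast_pow, Rat.cast_pow, Rat.cast_natCast, h1]
  field_simp

/-- the products of algebraic classes -/
def AlgPairs (W : WeilCohomology.{u, v} ops) (X : 𝒱.Obj) : Set (W.H (X.prod X)) :=
  {w | ∃ x ∈ algSpan W X, ∃ y ∈ algSpan W X, w = H281R3.HT.ext W x y}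

/-- the products of letters -/
def LetterPairs (Φ : FrobSystem W p) (X : 𝒱.Obj) (e : ℕ) (α : E) : Set (W.H (X.prod X)) :=
  {w | ∃ (σ τ : E →+* W.K) (x y : W.H X), IsLetter Φ X e α σ x ∧ IsLetter Φ X e α τ y ∧
    w = H281R3.HT.ext W x y}

/-- **The Tate classes on the square.** They are sums of products of algebraic classes and of
products of letters. -/
theorem tate_split (hpow : ∀ s : ℕ, 0 < s → IntermediateField.adjoin ℚ {α ^ s} = ⊤)
    (hsp : algSpan W X ⊔ Submodule.span W.K {x | ∃ σ, IsLetter Φ X e α σ x} = ⊤)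
    {j : ℕ} {c : W.H (X.prod X)} (hc : IsTate Φ (X.prod X) j c) :
    c ∈ Submodule.span W.K (AlgPairs W X) ⊔ Submodule.span W.K (LetterPairs Φ X e α) := by
  obtain ⟨hcgr, s, hs, hcs⟩ := hc
  obtain ⟨r, hr, hlev⟩ := exists_level Φ X
  obtain ⟨a₁, b₁, ha₁, hb₁, hab₁, hf1⟩ := frob_comm Φ (fst X X)
  obtain ⟨a₂, b₂, ha₂, hb₂, hab₂, hf2⟩ := frob_comm Φ (snd X X)
  have hlev2 : b₁ * (a₂ * (s * r)) = b₂ * (a₁ * (s * r)) := by
    have h3 : b₁ * a₂ * Φ.e X = b₂ * a₁ * Φ.e X := by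
      calc b₁ * a₂ * Φ.e X = a₂ * (b₁ * Φ.e X) := by ring
        _ = a₂ * (a₁ * Φ.e (X.prod X)) := by rw [hab₁]
        _ = a₁ * (a₂ * Φ.e (X.prod X)) := by ring
        _ = b₂ * a₁ * Φ.e X := by rw [hab₂]; ring
    have h4 := Nat.eq_of_mul_eq_mul_right (Φ.e_pos X) h3
    calc b₁ * (a₂ * (s * r)) = b₁ * a₂ * (s * r) := by ring
      _ = _ := by rw [h4]; ring
  set M := b₁ * (a₂ * (s * r)) with hM
  have hMpos : 0 < M := by positivity
  set T := a₁ * a₂ * (s * r) with hT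
  have hTM : Φ.e (X.prod X) * T = Φ.e X * M := by
    calc Φ.e (X.prod X) * T = (a₁ * Φ.e (X.prod X)) * (a₂ * (s * r)) := by rw [hT]; ring
      _ = Φ.e X * M := by rw [hab₁, hM]; ring
  have hF : ∀ x y, frob Φ (X.prod X) T (H281R3.HT.ext W x y) =
      H281R3.HT.ext W (frob Φ X M x) (frob Φ X M y) := by
    intro x y
    have h3 := hf1 (a₂ * (s * r)) x
    have h4 := hf2 (a₁ * (s * r)) y
    rw [show a₁ * (a₂ * (s * r)) = T by rw [hT]; ring] at h3
    rw [show a₂ * (a₁ * (s * r)) = T by rw [hT]; ring, ← hlev2] at h4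
    change W.map (W534.iter (Φ.Fr (X.prod X)) T) (W.map (fst X X) x * W.map (snd X X) y) = _
    rw [map_mul, h3, h4]
    rfl
  set Q : W.K := (card Φ X M : W.K) with hQ
  have hQ0 : Q ≠ 0 := card_ne Φ M
  have hext : ∀ {x y : W.H X} {μ μ' : W.K}, frob Φ X M x = μ • x → frob Φ X M y = μ' • y →
      frob Φ (X.prod X) T (H281R3.HT.ext W x y) = (μ * μ') • H281R3.HT.ext W x y := by
    intro x y μ μ' h1 h2
    rw [hF, h1, h2, H281R3.HT.ext, H281R3.HT.ext, map_smul, map_smul, smul_mul_smul_comm]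
  have hcT : frob Φ (X.prod X) T c = (Q ^ j) • c := by
    have h1 : frob Φ (X.prod X) s c = (card Φ (X.prod X) s : W.K) ^ j • c := by
      rw [card_pow]; exact hcs
    have h2 := eig_pow h1 (a₁ * a₂ * r)
    rw [show s * (a₁ * a₂ * r) = T by rw [hT]; ring] at h2
    rw [h2, card_pow, hQ, card_pow]
    congr 2
    rw [hTM]
  have hlevM : ∀ (j : ℕ), ∀ x ∈ spanCycles W X (j : ℤ), frob Φ X M x = Q ^ j • x := by
    intro j x hx
    have := hlev (b₁ * a₂ * s) j x hx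
    rwa [show r * (b₁ * a₂ * s) = M by rw [hM]; ring] at this
  have heig : ∀ x ∈ Base Φ X e α, ∃ μ : W.K, frob Φ X M x = μ • x := by
    rintro x (⟨j, hx⟩ | ⟨σ, hx⟩)
    · exact ⟨_, hlevM j x hx⟩
    · obtain ⟨μ, -, -, hμ, -⟩ := letter_level hx M
      exact ⟨μ, hμ⟩
  have h1 := W552.mem_span_eigen (K := W.K) (T := frob Φ (X.prod X) T)
    (M := {c | ∃ a ∈ Base Φ X e α, ∃ b ∈ Base Φ X e α, c = H281R3.HT.ext W a b}) (by
      rintro _ ⟨a, ha, b, hb, rfl⟩
      obtain ⟨μ, hμ⟩ := heig a ha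
      obtain ⟨μ', hμ'⟩ := heig b hb
      exact ⟨_, hext hμ hμ'⟩) (span_ext_top (span_base hsp) (span_base hsp)) hcT
  refine (Submodule.span_le.2 ?_ : _ ≤ Submodule.span W.K (AlgPairs W X) ⊔
    Submodule.span W.K (LetterPairs Φ X e α)) h1
  rintro _ ⟨⟨x, hx, y, hy, rfl⟩, hxy⟩
  by_cases hz : H281R3.HT.ext W x y = 0
  · rw [hz]; exact Submodule.zero_mem _
  have hx0 : x ≠ 0 := by
    rintro rfl
    exact hz (by rw [H281R3.HT.ext, map_zero, zero_mul])
  have hy0 : y ≠ 0 := by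
    rintro rfl
    exact hz (by rw [H281R3.HT.ext, map_zero, mul_zero])
  have hprod : ∀ {μ μ' : W.K}, frob Φ X M x = μ • x → frob Φ X M y = μ' • y →
      μ * μ' = Q ^ j := by
    intro μ μ' h1 h2
    have h3 := hext h1 h2
    rw [hxy] at h3
    exact (smul_left_injective W.K hz h3).symm
  have hmixed : ∀ {i : ℕ} {μ : W.K} {σ : E →+* W.K} {z : W.H X},
      IsLetter Φ X e α σ z → z ≠ 0 → frob Φ X M z = μ • z → Q ^ i * μ = Q ^ j → False := by
    intro i μ σ z hz hz0 hμ hjμ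
    obtain ⟨μ', N, hN, hμ', hrel⟩ := letter_level hz M
    rw [hμ'] at hμ
    have h2 := smul_left_injective W.K hz0 hμ
    subst h2
    have h3 : μ' = (((card Φ X M : ℚ) ^ j / (card Φ X M : ℚ) ^ i : ℚ) : W.K) := by
      push_cast
      rw [← hQ, eq_div_iff (pow_ne_zero _ hQ0), mul_comm, hjμ]
    rw [h3] at hrel
    exact letter_not_rat hpow hMpos hQ0 hN hrel
  rcases hx with ⟨i, hx⟩ | ⟨σ, hx⟩
  · rcases hy with ⟨i', hy⟩ | ⟨τ, hy⟩
    · exact Submodule.mem_sup_left (Submodule.subset_span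
        ⟨x, alg_of_spanCycles hx, y, alg_of_spanCycles hy, rfl⟩)
    · exfalso
      obtain ⟨μ', -, -, hμ', -⟩ := letter_level hy M
      exact hmixed hy hy0 hμ' (hprod (hlevM i x hx) hμ')
  · rcases hy with ⟨i', hy⟩ | ⟨τ, hy⟩
    · exfalso
      obtain ⟨μ', -, -, hμ', -⟩ := letter_level hx M
      exact hmixed hx hx0 hμ' (by rw [mul_comm]; exact hprod hμ' (hlevM i' y hy))
    · exact Submodule.mem_sup_right (Submodule.subset_span ⟨σ, τ, x, y, hx, hy, rfl⟩)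

end Pool.Agent.Y103.Sq
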