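import Pool.Agent.Y103.Sq.Rank
import Pool.Agent.Y103.Hk.Cls
import Pool.Agent.Y138.KH.Diag
import Pool.Agent.W534.PoleB
import Pool.Agent.W552.Frob

/-!
# The Tate conjecture for the square, from multiplicity one
-/

set_option autoImplicit false
set_option linter.unusedSectionVars false

open CategoryTheory AlgebraicGeometry NumberField Polynomial

universe u v

namespace Pool.Agent.Y103.Sq

open Pool.Agent.H914 Pool.Agent.H914.VarClass Pool.Agent.H914.VarClass.Obj
  Pool.Agent.H914.WeilCohomology Pool.Agent.H281R3.HT Pool.Agent.W552 Pool.Agent.W534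
  Pool.Agent.W458.RK Pool.Agent.W458.MF Pool.Agent.TH132.A Pool.Agent.W536.RR
  Pool.Agent.TH121.KT Pool.Agent.Y138.KH Pool.Agent.Y103.Hk

variable {k : Type u} [Field k] {𝒱 : VarClass k} {ops : CycleOps 𝒱}
  {W : WeilCohomology.{u, v} ops} {X Y Z : 𝒱.Obj} {p : ℕ} {Φ : FrobSystem W p} {e : ℕ}
  {E : Type} [Field E] {α : E}

/-- a level at which the Frobenius endomorphism acts on all algebraic classes by powers of `q` -/
lemma exists_level (Φ : FrobSystem W p) (X : 𝒱.Obj) : ∃ r, 0 < r ∧ ∀ (t j : ℕ),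
    ∀ c ∈ spanCycles W X (j : ℤ), frob Φ X (r * t) c = (card Φ X (r * t) : W.K) ^ j • c := by
  choose t ht h using fun j : ℕ => exists_span_eig Φ X j
  refine ⟨∏ j ∈ Finset.range (X.dim + 1), t j, Finset.prod_pos fun j _ => ht j,
    fun s j c hc => ?_⟩
  by_cases hj : j ≤ X.dim
  · obtain ⟨m, hm⟩ := Finset.dvd_prod_of_mem t (Finset.mem_range.2 (Nat.lt_succ_of_le hj))
    rw [hm, mul_assoc]
    exact eig_pow (h j c hc) (m * s)
  · have h1 : c ∈ W.gr X (2 * j) := span_gr hc
    rw [W.gr_eq_bot X _ (by omega)] at h1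
    rw [(Submodule.mem_bot _).1 h1, map_zero, smul_zero]

/-- the relation for a letter at a level -/
lemma letter_level {σ : E →+* W.K} {x : W.H X} (hx : IsLetter Φ X e α σ x) (r : ℕ) :
    ∃ (μ : W.K) (N : ℕ), 0 < N ∧ frob Φ X r x = μ • x ∧
      μ ^ (2 * e * N) = (card Φ X r : W.K) ^ (X.dim * (e * N)) * σ α ^ (2 * N * r) := by
  obtain ⟨-, μ, N, hN, hμ, hrel⟩ := hx
  refine ⟨μ ^ r, N, hN, ?_, ?_⟩
  · rw [frob_apply, W534.map_iter]
    clear hrel
    induction r with
    | zero => rw [pow_zero, one_smul]; rfl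
    | succ r ih => rw [Function.iterate_succ_apply', ih, map_smul, hμ, smul_smul, pow_succ]
  · rw [← pow_mul, mul_comm r, pow_mul, hrel, mul_pow, ← pow_mul, ← pow_mul, W534.card,
      Nat.cast_pow, ← pow_mul]
    congr 2
    ring

section arith

variable [NumberField E] [IsCMField E]

lemma letter_sep (hpow : ∀ s : ℕ, 0 < s → IntermediateField.adjoin ℚ {α ^ s} = ⊤)
    {r d : ℕ} (hr : 0 < r) {Q μ : W.K} (hQ : Q ≠ 0) {σ τ : E →+* W.K} {N N' : ℕ}
    (hN : 0 < N) (hN' : 0 < N')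
    (h1 : μ ^ (2 * e * N) = Q ^ (d * (e * N)) * σ α ^ (2 * N * r))
    (h2 : μ ^ (2 * e * N') = Q ^ (d * (e * N')) * τ α ^ (2 * N' * r)) : σ = τ := by
  refine emb_eq hpow (s := 2 * N * N' * r) (by positivity) ?_
  rw [map_pow, map_pow]
  have h3 : Q ^ (d * (e * (N * N'))) * σ α ^ (2 * N * N' * r) =
      Q ^ (d * (e * (N * N'))) * τ α ^ (2 * N * N' * r) := by
    calc Q ^ (d * (e * (N * N'))) * σ α ^ (2 * N * N' * r)
        = (Q ^ (d * (e * N)) * σ α ^ (2 * N * r)) ^ N' := by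
          rw [mul_pow, ← pow_mul, ← pow_mul]; congr 2 <;> ring
      _ = (μ ^ (2 * e * N')) ^ N := by rw [← h1, ← pow_mul, ← pow_mul]; congr 1; ring
      _ = _ := by rw [h2, mul_pow, ← pow_mul, ← pow_mul]; congr 2 <;> ring
  exact mul_left_cancel₀ (pow_ne_zero _ hQ) h3

lemma letter_not_alg (hpow : ∀ s : ℕ, 0 < s → IntermediateField.adjoin ℚ {α ^ s} = ⊤)
    {r d j : ℕ} (hr : 0 < r) {q : ℕ} (hQ : (q : W.K) ≠ 0) {σ : E →+* W.K} {N : ℕ}
    (hN : 0 < N)
    (h1 : ((q : W.K) ^ j) ^ (2 * e * N) = (q : W.K) ^ (d * (e * N)) * σ α ^ (2 * N * r)) :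
    False := by
  refine not_rat hpow σ (s := 2 * N * r) (by positivity)
    ((q : ℚ) ^ (j * (2 * e * N)) * ((q : ℚ) ^ (d * (e * N)))⁻¹) ?_
  rw [← pow_mul] at h1
  rw [map_pow, Rat.cast_mul, Rat.cast_inv, Rat.cast_pow, Rat.cast_pow, Rat.cast_natCast, h1]
  field_simp

end arith

/-- the set of eigenvectors -/
def Base (Φ : FrobSystem W p) (X : 𝒱.Obj) (e : ℕ) (α : E) : Set (W.H X) :=
  {x | ∃ j : ℕ, x ∈ spanCycles W X (j : ℤ)} ∪ {x | ∃ σ, IsLetter Φ X e α σ x}

lemma span_base (hsp : algSpan W X ⊔ Submodule.span W.K {x | ∃ σ, IsLetter Φ X e α σ x} = ⊤) :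
    Submodule.span W.K (Base Φ X e α) = ⊤ := by
  rw [eq_top_iff, ← hsp, Base, Submodule.span_union]
  refine sup_le_sup_right ?_ _
  intro a ha
  refine algSpan_induction (p := fun a => a ∈ Submodule.span W.K
    {x | ∃ j : ℕ, x ∈ spanCycles W X (j : ℤ)})
    ?_ ?_ ?_ ?_ ha
  · exact Submodule.zero_mem _
  · exact fun a b ha hb => Submodule.add_mem _ ha hb
  · exact fun t a ha => Submodule.smul_mem _ _ ha
  · intro j z hz
    exact Submodule.subset_span ⟨j, Submodule.subset_span ⟨j, rfl, z, hz, rfl⟩⟩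

lemma alg_of_spanCycles {j : ℤ} {x : W.H X} (hx : x ∈ spanCycles W X j) : x ∈ algSpan W X := by
  refine (Submodule.span_le.2 ?_ : spanCycles W _ _ ≤ algSpan W _) hx
  rintro _ ⟨_, _, z, hz, rfl⟩
  exact cl_mem_algSpan hz

lemma aeval_mem {K V : Type*} [Field K] [AddCommGroup V] [Module K V] {G : Module.End K V}
    {S : Submodule K V} (hG : ∀ y ∈ S, G y ∈ S) (q : K[X]) {y : V} (hy : y ∈ S) :
    aeval G q y ∈ S := by
  have hpow : ∀ n : ℕ, (G ^ n) y ∈ S := by
    intro n
    induction n with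
    | zero => exact hy
    | succ n ih => rw [pow_succ', Module.End.mul_apply]; exact hG _ ih
  induction q using Polynomial.induction_on' with
  | add p q hp hq => rw [map_add]; exact Submodule.add_mem _ hp hq
  | monomial n a =>
    rw [aeval_monomial, Module.End.mul_apply, Module.algebraMap_end_apply]
    exact Submodule.smul_mem _ _ (hpow n)

section main

variable [NumberField E] [IsCMField E]

open Classical in
/-- **The partner.** A nonzero letter of multiplicity one has a partner: a letter for the complex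
conjugate embedding such that the external product of the two is algebraic. -/
theorem exists_letter_partner (hu : ∀ φ : E →+* ℂ, ‖φ α‖ = 1)
    (hpow : ∀ s : ℕ, 0 < s → IntermediateField.adjoin ℚ {α ^ s} = ⊤)
    (hsp : algSpan W X ⊔ Submodule.span W.K {x | ∃ σ, IsLetter Φ X e α σ x} = ⊤)
    (hmult : ∀ σ, IsLine W.K {x | IsLetter Φ X e α σ x}) {σ : E →+* W.K} {v : W.H X}
    (hv : IsLetter Φ X e α σ v) (hv0 : v ≠ 0) :
    ∃ w, w ≠ 0 ∧ IsLetter Φ X e α (cj σ) w ∧ ext W w v ∈ algSpan W (X.prod X) := by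
  -- finitely many letters
  obtain ⟨B, hB⟩ : (Submodule.span W.K {x : W.H X | ∃ σ, IsLetter Φ X e α σ x}).FG :=
    IsNoetherian.noetherian _
  obtain ⟨T, hTS, hBT⟩ := exists_finset_span (K := W.K)
    (s := {x : W.H X | ∃ σ, IsLetter Φ X e α σ x}) B (by
      intro x hx
      rw [← hB]
      exact Submodule.subset_span hx)
  have hsp' : algSpan W X ⊔ Submodule.span W.K (T : Set (W.H X)) = ⊤ := by
    rw [eq_top_iff, ← hsp]
    refine sup_le_sup_left ?_ _
    rw [← hB, Submodule.span_le]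
    exact hBT
  obtain ⟨r, hr, hlev⟩ := exists_level Φ X
  have hlev' : ∀ (j : ℕ), ∀ c ∈ spanCycles W X (j : ℤ), frob Φ X r c = (card Φ X r : W.K) ^ j • c := by
    intro j c hc
    have := hlev 1 j c hc
    rwa [mul_one] at this
  obtain ⟨μ, N, hN, hμ, hrel⟩ := letter_level hv r
  set Q : W.K := (card Φ X r : W.K) with hQ
  have hQ0 : Q ≠ 0 := card_ne Φ r
  have hex : ∀ x : W.H X, ∃ ν : W.K, x ∈ T → frob Φ X r x = ν • x := by
    intro x
    by_cases hx : x ∈ T
    · obtain ⟨τ, hτ⟩ := hTS hx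
      obtain ⟨ν, -, -, hν, -⟩ := letter_level hτ r
      exact ⟨ν, fun _ => hν⟩
    · exact ⟨0, fun h => absurd h hx⟩
  choose nu hnu using hex
  obtain ⟨q, hqμ, hq0⟩ := exists_poly (T.image nu ∪
    (Finset.range (X.dim + 1)).image fun j => Q ^ j) μ
  have hvQ : ∀ j : ℕ, Q ^ j ≠ μ := by
    rintro j rfl
    exact letter_not_alg hpow (j := j) hr hQ0 hN hrel
  -- the polynomial kills the algebraic classes
  have hqalg : ∀ y ∈ algSpan W X, aeval (frob Φ X r) q y = 0 := by
    intro y hy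
    refine algSpan_induction (p := fun y => aeval (frob Φ X r) q y = 0) ?_ ?_ ?_ ?_ hy
    · exact map_zero _
    · intro a b ha hb
      rw [map_add, ha, hb, add_zero]
    · intro t a ha
      rw [map_smul, ha, smul_zero]
    · intro j z hz
      by_cases hj : j ≤ X.dim
      · rw [Hk.aeval_eig (hlev' j _ (Submodule.subset_span ⟨j, rfl, z, hz, rfl⟩)),
          hq0 _ (Finset.mem_union_right _ (Finset.mem_image_of_mem _
            (Finset.mem_range.2 (Nat.lt_succ_of_le hj)))) (hvQ j), zero_smul]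
      · have h1 := W.cl_mem hz
        rw [W.gr_eq_bot X _ (by omega)] at h1
        rw [(Submodule.mem_bot _).1 h1, map_zero]
  have hqT : ∀ y, ∃ t : W.K, aeval (frob Φ X r) q y = t • v := by
    intro y
    have hy : y ∈ algSpan W X ⊔ Submodule.span W.K (T : Set (W.H X)) := by
      rw [hsp']; exact Submodule.mem_top
    obtain ⟨a, ha, b, hb, rfl⟩ := Submodule.mem_sup.1 hy
    rw [map_add, hqalg a ha, zero_add]
    refine exists_line (hmult σ) hv hv0 ?_
    clear hy
    induction hb using Submodule.span_induction with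
    | mem x hx =>
      have hx : x ∈ T := hx
      rw [Hk.aeval_eig (hnu x hx)]
      by_cases hxμ : nu x = μ
      · apply Submodule.smul_mem
        by_cases hx0 : x = 0
        · rw [hx0]; exact Submodule.zero_mem _
        · obtain ⟨τ, hτ⟩ := hTS hx
          obtain ⟨ν, N', hN', hν, hrel'⟩ := letter_level hτ r
          have h1 : ν = μ := by
            rw [← hxμ]
            have h2 := hnu x hx
            rw [hν] at h2
            exact smul_left_injective W.K hx0 h2
          subst h1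
          rw [letter_sep hpow hr hQ0 hN hN' hrel hrel']
          exact Submodule.subset_span hτ
      · rw [hq0 _ (Finset.mem_union_left _ (Finset.mem_image_of_mem nu hx)) hxμ, zero_smul]
        exact Submodule.zero_mem _
    | zero => rw [map_zero]; exact Submodule.zero_mem _
    | add x y _ _ hx hy => rw [map_add]; exact Submodule.add_mem _ hx hy
    | smul c x _ hx => rw [map_smul]; exact Submodule.smul_mem _ _ hx
  -- the algebraic class
  have hdiag : W.push (diag X) (1 : W.H X) ∈ algSpan W (X.prod X) := by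
    rw [← W.cl_fund, ← W.cl_push]
    exact cl_mem_algSpan (ops.push_mem (q := X.dim) (diag X) X.V.fundCycle_mem
      (by rw [dim_prod]; ring))
  obtain ⟨c, hc, hcc⟩ := alg_comp_poly (W534.iter (Φ.Fr X) r) hdiag q
  have hcc' : ∀ y, W.corr c y = aeval (frob Φ X r) q y := by
    intro y
    rw [hcc, LinearMap.comp_apply, corr_diag, one_mul]
    rfl
  have hdeg : ∀ l, l ≠ X.dim → ∀ y ∈ W.gr X l, W.corr c y = 0 := by
    intro l hl y hy
    obtain ⟨t, ht⟩ := hqT y
    rw [hcc']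
    have h1 : aeval (frob Φ X r) q y ∈ W.gr X l := aeval_mem (fun z hz => W.map_mem _ hz) q hy
    rw [ht] at h1 ⊢
    have h2 := proj_same (W.isInternal X) h1
    rw [map_smul, proj_ne _ hv.1 (by omega), smul_zero] at h2
    exact h2.symm
  obtain ⟨w, hw, hwv, hwtr⟩ := rank_one' (r := c) (a := X.dim) (a' := X.dim) (by ring) hv.1 hv0
    (fun y => by rw [hcc']; exact hqT y) hdeg
  have hw0 : w ≠ 0 := by
    rintro rfl
    have h5 := hwtr v
    rw [zero_mul, map_zero, zero_smul, hcc', Hk.aeval_eig hμ] at h5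
    rcases smul_eq_zero.1 h5 with h6 | h6
    · exact hqμ h6
    · exact hv0 h6
  obtain ⟨-, μ₀, N₀, hN₀, hμ₀, hrel₀⟩ := id hv
  have hμ₀0 : μ₀ ≠ 0 := by
    rintro rfl
    apply hv0
    apply map_iter_injective Φ 1
    rw [map_zero, map_iter_one, hμ₀, zero_smul]
  set q₀ : W.K := (p : W.K) ^ (Φ.e X * X.dim) with hq₀
  have hp0 : (p : W.K) ≠ 0 := Nat.cast_ne_zero.2 Φ.p_pos.ne'
  have hcomm : ∀ y, W.corr c (W.map (Φ.Fr X) y) = W.map (Φ.Fr X) (W.corr c y) := by
    intro y
    rw [hcc', hcc']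
    have h1 : frob Φ X r = (W.map (Φ.Fr X)).toLinearMap ^ r := frob_pow_eq' _ _
    have h2 : Commute (aeval (frob Φ X r) q) (W.map (Φ.Fr X)).toLinearMap := by
      have h3 : aeval ((W.map (Φ.Fr X)).toLinearMap ^ r) q =
          aeval (W.map (Φ.Fr X)).toLinearMap (q.comp (Polynomial.X ^ r)) := by
        rw [Polynomial.aeval_comp, map_pow, aeval_X]
      rw [h1, h3]
      exact Hk.aeval_comm _ _
    exact LinearMap.congr_fun h2.eq y
  have hwG : ∀ y, W.tr X (w * W.map (Φ.Fr X) y) = μ₀ * W.tr X (w * y) := by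
    intro y
    have h5 : W.tr X (w * W.map (Φ.Fr X) y) • v = (μ₀ * W.tr X (w * y)) • v := by
      rw [← hwtr, hcomm, hwtr, map_smul, hμ₀, smul_smul, mul_comm]
    exact smul_left_injective W.K hv0 h5
  have hGw : W.map (Φ.Fr X) w = (q₀ * μ₀⁻¹) • w := by
    rw [← sub_eq_zero]
    apply W.nondeg
    intro y
    obtain ⟨y, rfl⟩ := map_iter_surjective Φ 1 y
    rw [map_iter_one, sub_mul, map_sub, sub_eq_zero, smul_mul_assoc, map_smul, smul_eq_mul, hwG,
      ← map_mul]
    have h5 := tr_iter Φ 1 (w * y)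
    rw [map_iter_one, mul_one] at h5
    rw [h5, ← hq₀, mul_assoc, inv_mul_cancel_left₀ hμ₀0]
  refine ⟨w, hw0, ⟨hw, q₀ * μ₀⁻¹, N₀, hN₀, hGw, ?_⟩, ?_⟩
  · have h6 : σ α ≠ 0 := by
      rw [ne_eq, map_eq_zero]
      exact TH121.KT.alpha_ne hu
    rw [mul_pow, inv_pow, hrel₀, cj_val hu, inv_pow, hq₀, ← pow_mul]
    have h7 : (p : W.K) ^ (Φ.e X * X.dim * (2 * e * N₀)) =
        (p : W.K) ^ (Φ.e X * (X.dim * (e * N₀))) * (p : W.K) ^ (Φ.e X * (X.dim * (e * N₀))) := by
      rw [← pow_add]; congr 1; ring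
    rw [h7]
    field_simp
  · rw [hwv]
    exact Submodule.smul_mem _ _ hc

end main

lemma span_ext_top {S : Set (W.H X)} {S' : Set (W.H Y)} (hS : Submodule.span W.K S = ⊤)
    (hS' : Submodule.span W.K S' = ⊤) :
    Submodule.span W.K {c | ∃ a ∈ S, ∃ b ∈ S', c = H281R3.HT.ext W a b} = ⊤ := by
  rw [eq_top_iff]
  rintro c -
  obtain ⟨t, rfl⟩ := (W.kunneth X Y).2 c
  induction t using TensorProduct.induction_on with
  | zero => rw [map_zero]; exact Submodule.zero_mem _
  | add x y hx hy => rw [map_add]; exact Submodule.add_mem _ hx hy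
  | tmul a b =>
    have h1 : kunnethMap (W.map (fst X Y)) (W.map (snd X Y)) (a ⊗ₜ b) = H281R3.HT.ext W a b := rfl
    rw [h1]
    have ha : a ∈ Submodule.span W.K S := by rw [hS]; exact Submodule.mem_top
    have hb : b ∈ Submodule.span W.K S' := by rw [hS']; exact Submodule.mem_top
    clear h1
    induction ha using Submodule.span_induction with
    | mem a ha =>
      induction hb using Submodule.span_induction with
      | mem b hb => exact Submodule.subset_span ⟨a, ha, b, hb, rfl⟩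
      | zero => rw [H281R3.HT.ext, map_zero, mul_zero]; exact Submodule.zero_mem _
      | add b b' _ _ h1 h2 =>
        rw [H281R3.HT.ext, map_add, mul_add]
        exact Submodule.add_mem _ h1 h2
      | smul r b _ h1 =>
        rw [H281R3.HT.ext, map_smul, mul_smul_comm]
        exact Submodule.smul_mem _ r h1
    | zero => rw [H281R3.HT.ext, map_zero, zero_mul]; exact Submodule.zero_mem _
    | add a a' _ _ h1 h2 =>
      rw [H281R3.HT.ext, map_add, add_mul]
      exact Submodule.add_mem _ h1 h2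
    | smul r a _ h1 =>
      rw [H281R3.HT.ext, map_smul, smul_mul_assoc]
      exact Submodule.smul_mem _ r h1

section square

variable [NumberField E] [IsCMField E]

/-- **The Tate conjecture for the square in the middle codimension, from multiplicity one.** -/
theorem tate_square (hu : ∀ φ : E →+* ℂ, ‖φ α‖ = 1)
    (hpow : ∀ s : ℕ, 0 < s → IntermediateField.adjoin ℚ {α ^ s} = ⊤) (he : 0 < e)
    (hsp : algSpan W X ⊔ Submodule.span W.K {x | ∃ σ, IsLetter Φ X e α σ x} = ⊤)
    (hmult : ∀ σ, IsLine W.K {x | IsLetter Φ X e α σ x}) : TateIn Φ (X.prod X) X.dim := by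
  rintro c ⟨hcgr, s, hs, hcs⟩
  obtain ⟨r, hr, hlev⟩ := exists_level Φ X
  obtain ⟨a₁, b₁, ha₁, hb₁, hab₁, hf1⟩ := frob_comm Φ (fst X X)
  obtain ⟨a₂, b₂, ha₂, hb₂, hab₂, hf2⟩ := frob_comm Φ (snd X X)
  have hlev2 : b₁ * (a₂ * (s * r)) = b₂ * (a₁ * (s * r)) := by
    have h3 : b₁ * a₂ * Φ.e X = b₂ * a₁ * Φ.e X := by
      calc b₁ * a₂ * Φ.e X = a₂ * (b₁ * Φ.e X) := by ring
        _ = a₂ * (a₁ * Φ.e (X.prod X)) := by rw [hab₁]
        _ = a₁ * (a₂ * Φ.e (X.prod X)) := by ring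
        _ = b₂ * a₁ * Φ.e X := by rw [hab₂]; ring
    have h4 := Nat.eq_of_mul_eq_mul_right (Φ.e_pos X) h3
    calc b₁ * (a₂ * (s * r)) = b₁ * a₂ * (s * r) := by ring
      _ = _ := by rw [h4]; ring
  set M := b₁ * (a₂ * (s * r)) with hM
  have hMpos : 0 < M := by positivity
  set T := a₁ * a₂ * (s * r) with hT
  have hTM : Φ.e (X.prod X) * T = Φ.e X * M := by
    calc Φ.e (X.prod X) * T = (a₁ * Φ.e (X.prod X)) * (a₂ * (s * r)) := by rw [hT]; ring
      _ = Φ.e X * M := by rw [hab₁, hM]; ring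
  have hF : ∀ x y, frob Φ (X.prod X) T (H281R3.HT.ext W x y) =
      H281R3.HT.ext W (frob Φ X M x) (frob Φ X M y) := by
    intro x y
    have h3 := hf1 (a₂ * (s * r)) x
    have h4 := hf2 (a₁ * (s * r)) y
    rw [show a₁ * (a₂ * (s * r)) = T by rw [hT]; ring] at h3
    rw [show a₂ * (a₁ * (s * r)) = T by rw [hT]; ring, ← hlev2] at h4
    change W.map (W534.iter (Φ.Fr (X.prod X)) T) (W.map (fst X X) x * W.map (snd X X) y) = _
    rw [map_mul, h3, h4]
    rfl
  set Q : W.K := (card Φ X M : W.K) with hQ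
  have hQ0 : Q ≠ 0 := card_ne Φ M
  have hext : ∀ {x y : W.H X} {μ μ' : W.K}, frob Φ X M x = μ • x → frob Φ X M y = μ' • y →
      frob Φ (X.prod X) T (H281R3.HT.ext W x y) = (μ * μ') • H281R3.HT.ext W x y := by
    intro x y μ μ' h1 h2
    rw [hF, h1, h2, H281R3.HT.ext, H281R3.HT.ext, map_smul, map_smul, smul_mul_smul_comm]
  have hcT : frob Φ (X.prod X) T c = (Q ^ X.dim) • c := by
    have h1 : frob Φ (X.prod X) s c = (card Φ (X.prod X) s : W.K) ^ X.dim • c := by
      rw [card_pow]; exact hcs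
    have h2 := eig_pow h1 (a₁ * a₂ * r)
    rw [show s * (a₁ * a₂ * r) = T by rw [hT]; ring] at h2
    rw [h2, card_pow, hQ, card_pow]
    congr 2
    rw [hTM]
  have hlevM : ∀ (j : ℕ), ∀ x ∈ spanCycles W X (j : ℤ), frob Φ X M x = Q ^ j • x := by
    intro j x hx
    have := hlev (b₁ * a₂ * s) j x hx
    rwa [show r * (b₁ * a₂ * s) = M by rw [hM]; ring] at this
  have heig : ∀ x ∈ Base Φ X e α, ∃ μ : W.K, frob Φ X M x = μ • x := by
    rintro x (⟨j, hx⟩ | ⟨σ, hx⟩)
    · exact ⟨_, hlevM j x hx⟩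
    · obtain ⟨μ, -, -, hμ, -⟩ := letter_level hx M
      exact ⟨μ, hμ⟩
  have h1 := W552.mem_span_eigen (K := W.K) (T := frob Φ (X.prod X) T)
    (M := {c | ∃ a ∈ Base Φ X e α, ∃ b ∈ Base Φ X e α, c = H281R3.HT.ext W a b}) (by
      rintro _ ⟨a, ha, b, hb, rfl⟩
      obtain ⟨μ, hμ⟩ := heig a ha
      obtain ⟨μ', hμ'⟩ := heig b hb
      exact ⟨_, hext hμ hμ'⟩) (span_ext_top (span_base hsp) (span_base hsp)) hcT
  refine spanCycles_of_alg ?_ hcgr
  refine (Submodule.span_le.2 ?_ : _ ≤ algSpan W (X.prod X)) h1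
  rintro _ ⟨⟨x, hx, y, hy, rfl⟩, hxy⟩
  by_cases hz : H281R3.HT.ext W x y = 0
  · rw [hz]; exact Submodule.zero_mem _
  have hx0 : x ≠ 0 := by
    rintro rfl
    exact hz (by rw [H281R3.HT.ext, map_zero, zero_mul])
  have hy0 : y ≠ 0 := by
    rintro rfl
    exact hz (by rw [H281R3.HT.ext, map_zero, mul_zero])
  have hprod : ∀ {μ μ' : W.K}, frob Φ X M x = μ • x → frob Φ X M y = μ' • y →
      μ * μ' = Q ^ X.dim := by
    intro μ μ' h1 h2
    have h3 := hext h1 h2
    rw [hxy] at h3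
    exact (smul_left_injective W.K hz h3).symm
  have hjle : ∀ {j : ℕ} {x : W.H X}, x ∈ spanCycles W X (j : ℤ) → x ≠ 0 → j ≤ X.dim := by
    intro j x hx hx0
    by_contra hj
    have h1 : x ∈ W.gr X (2 * j) := span_gr hx
    rw [W.gr_eq_bot X _ (by omega)] at h1
    exact hx0 ((Submodule.mem_bot _).1 h1)
  have hmixed : ∀ {j : ℕ} {μ : W.K} {σ : E →+* W.K} {z : W.H X}, j ≤ X.dim →
      IsLetter Φ X e α σ z → z ≠ 0 → frob Φ X M z = μ • z → Q ^ j * μ = Q ^ X.dim → False := by
    intro j μ σ z hj hz hz0 hμ hjμ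
    obtain ⟨μ', N, hN, hμ', hrel⟩ := letter_level hz M
    rw [hμ'] at hμ
    have h2 := smul_left_injective W.K hz0 hμ
    subst h2
    have h3 : μ' = Q ^ (X.dim - j) := by
      have h4 : Q ^ X.dim = Q ^ j * Q ^ (X.dim - j) := by
        rw [← pow_add]; congr 1; omega
      rw [h4] at hjμ
      exact mul_left_cancel₀ (pow_ne_zero _ hQ0) hjμ
    rw [h3] at hrel
    exact letter_not_alg hpow hMpos hQ0 hN hrel
  rcases hx with ⟨j, hx⟩ | ⟨σ, hx⟩
  · rcases hy with ⟨j', hy⟩ | ⟨τ, hy⟩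
    · exact algSpan_mul (algSpan_map _ (alg_of_spanCycles hx))
        (algSpan_map _ (alg_of_spanCycles hy))
    · exfalso
      obtain ⟨μ', -, -, hμ', -⟩ := letter_level hy M
      exact hmixed (hjle hx hx0) hy hy0 hμ' (hprod (hlevM j x hx) hμ')
  · rcases hy with ⟨j', hy⟩ | ⟨τ, hy⟩
    · exfalso
      obtain ⟨μ', -, -, hμ', -⟩ := letter_level hx M
      exact hmixed (hjle hy hy0) hx hx0 hμ' (by rw [mul_comm]; exact hprod hμ' (hlevM j' y hy))
    · obtain ⟨μ, N, hN, hμ, hrel⟩ := letter_level hx M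
      obtain ⟨μ', N', hN', hμ', hrel'⟩ := letter_level hy M
      rw [← hQ] at hrel hrel'
      have h2 := hprod hμ hμ'
      have hμ'0 : μ' ≠ 0 := by
        rintro rfl
        rw [mul_zero] at h2
        exact pow_ne_zero _ hQ0 h2.symm
      have h3 : σ = cj τ := by
        refine letter_sep hpow (μ := μ) (N' := N') hMpos hQ0 hN hN' hrel ?_
        have h4 : μ = Q ^ X.dim * μ'⁻¹ := by
          rw [← h2, mul_assoc, mul_inv_cancel₀ hμ'0, mul_one]
        have h6 : τ α ≠ 0 := by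
          rw [ne_eq, map_eq_zero]
          exact TH121.KT.alpha_ne hu
        rw [h4, mul_pow, inv_pow, hrel', cj_val hu, inv_pow, ← pow_mul]
        have h7 : Q ^ (X.dim * (2 * e * N')) = Q ^ (X.dim * (e * N')) * Q ^ (X.dim * (e * N')) := by
          rw [← pow_add]; congr 1; ring
        rw [h7]
        field_simp
      subst h3
      obtain ⟨w, hw0, hw, hwy⟩ := exists_letter_partner hu hpow hsp hmult hy hy0
      obtain ⟨t, ht⟩ := hmult (cj τ) x hx w hw hw0
      have h5 : H281R3.HT.ext W x y = t • H281R3.HT.ext W w y := by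
        rw [ht, H281R3.HT.ext, H281R3.HT.ext, map_smul, smul_mul_assoc]
      rw [h5]
      exact Submodule.smul_mem _ _ hwy

end square

end Pool.Agent.Y103.Sq
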